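import Pool.Agent.Work.MP_6af739_lc.LB.Dyn

/-!
A polynomial curve inside the two-sided neighbourhood passes few walls: a count of sign changes.
-/

namespace Pool.Agent.Work.MP_6af739_lc.LB

open Finset

variable {m n k : ℕ}

theorem alt {f : ℝ → ℝ} (hf : ContinuousOn f (Set.Icc 0 1)) (Q : Polynomial ℝ) (v : ℕ → ℝ)
    (hv : StrictMono v) (N : ℕ) (h1 : f 1 ≤ v 0) (h0 : v N ≤ f 0)
    (hs : ∀ j ≤ N, ∀ a ∈ Set.Icc (0 : ℝ) 1, f a = v j → 0 < (-1) ^ j * Q.eval a) :
    N ≤ Q.natDegree := by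
  have P : ∀ j ≤ N, ∀ a ∈ Set.Icc (0 : ℝ) 1, f a = v j →
      ∃ S : Finset ℝ, S.card = j ∧ ∀ z ∈ S, a < z ∧ Q.eval z = 0 := by
    intro j
    induction j with
    | zero => exact fun _ _ _ _ => ⟨∅, rfl, by simp⟩
    | succ j ih =>
      intro hj a ha e
      have sub : Set.Icc a 1 ⊆ Set.Icc (0 : ℝ) 1 := Set.Icc_subset_Icc_left ha.1
      obtain ⟨a', ha', e'⟩ := intermediate_value_Icc' ha.2 (hf.mono sub)
        (show v j ∈ Set.Icc (f 1) (f a) from ⟨h1.trans (hv.monotone (Nat.zero_le j)),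
          by rw [e]; exact (hv (Nat.lt_succ_self j)).le⟩)
      obtain ⟨S, hS, hz⟩ := ih (by omega) a' (sub ha') e'
      have s1 := hs (j + 1) hj a ha e
      have s2 := hs j (by omega) a' (sub ha') e'
      have hc : ContinuousOn (fun t => (-1 : ℝ) ^ j * Q.eval t) (Set.Icc a a') :=
        (continuous_const.mul Q.continuous).continuousOn
      have s3 : (-1 : ℝ) ^ j * Q.eval a < 0 := by rw [pow_succ] at s1; linarith
      obtain ⟨z, hz1, hz2⟩ := intermediate_value_Ioo ha'.1 hc ⟨s3, s2⟩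
      refine ⟨insert z S, ?_, fun w hw => ?_⟩
      · rw [Finset.card_insert_of_notMem, hS]
        exact fun h => absurd (hz z h).1 (not_lt.2 hz1.2.le)
      · rcases Finset.mem_insert.1 hw with rfl | hw
        · exact ⟨hz1.1, (mul_eq_zero.1 hz2).resolve_left (pow_ne_zero _ (by norm_num))⟩
        · exact ⟨lt_of_le_of_lt ha'.1 (hz w hw).1, (hz w hw).2⟩
  obtain ⟨a, ha, e⟩ := intermediate_value_Icc' zero_le_one hf
    (show v N ∈ Set.Icc (f 1) (f 0) from ⟨h1.trans (hv.monotone (Nat.zero_le N)), h0⟩)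
  obtain ⟨S, hS, hz⟩ := P N le_rfl a ha e
  have hQ : Q ≠ 0 := fun h => by
    have := hs N le_rfl a ha e
    simp [h] at this
  rw [← hS]
  exact Polynomial.card_le_degree_of_subset_roots fun z hz' =>
    (Polynomial.mem_roots hQ).2 (hz z hz').2

theorem mid {η β : ℝ} {x : Fin n → ℝ} {y s : Fin m → ℝ} (j0 j1 : Fin n)
    (h0 : (j0 : ℕ) = 0) (h1 : (j1 : ℕ) = 1) (h : Good m n k η β j1 x y s) (hk : 1 ≤ k)
    (hkm : k < m) (hβ0 : 0 ≤ β) :
    ∑ i ∈ (Wl m k).filter (fun i : Fin m =>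
      ¬ (pos k (x j1) ≤ i + 1 ∧ (i : ℕ) ≤ pos k (x j1) + 1)), y i ≤ 24 * β * k ^ 2 := by
  have hC : 0 ≤ 12 * β * (k : ℝ) ^ 2 := by positivity
  have t1 := tail_sum ((Wl m k).filter fun i => (i : ℕ) + 2 ≤ pos k (x j1))
    (fun i => pos k (x j1) - i - 2)
    (fun a ha b hb hab => by
      have ha' := (Finset.mem_filter.1 (Finset.mem_coe.1 ha)).2
      have hb' := (Finset.mem_filter.1 (Finset.mem_coe.1 hb)).2
      apply Fin.ext; simp only at hab; omega) y hC
    (fun i hi => by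
      have hi' := Finset.mem_filter.1 hi
      exact far j0 j1 h0 h1 h hk hkm i (mem_Wl.1 hi'.1) _ (Or.inl (by have := hi'.2; omega)))
  have t2 := tail_sum ((Wl m k).filter fun i => pos k (x j1) + 2 ≤ (i : ℕ))
    (fun i => i - pos k (x j1) - 2)
    (fun a ha b hb hab => by
      have ha' := (Finset.mem_filter.1 (Finset.mem_coe.1 ha)).2
      have hb' := (Finset.mem_filter.1 (Finset.mem_coe.1 hb)).2
      apply Fin.ext; simp only at hab; omega) y hC
    (fun i hi => by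
      have hi' := Finset.mem_filter.1 hi
      exact far j0 j1 h0 h1 h hk hkm i (mem_Wl.1 hi'.1) _ (Or.inr (by have := hi'.2; omega)))
  have e : (Wl m k).filter (fun i : Fin m =>
      ¬ (pos k (x j1) ≤ i + 1 ∧ (i : ℕ) ≤ pos k (x j1) + 1)) =
      ((Wl m k).filter fun i : Fin m => (i : ℕ) + 2 ≤ pos k (x j1)) ∪
        ((Wl m k).filter fun i : Fin m => pos k (x j1) + 2 ≤ (i : ℕ)) := by
    rw [← Finset.filter_or]
    exact Finset.filter_congr fun i _ => by omega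
  rw [e, Finset.sum_union (Finset.disjoint_filter.2 fun i _ a b => by omega)]
  linarith

theorem heavy0 {η β : ℝ} {x : Fin n → ℝ} {y s : Fin m → ℝ} (j0 j1 : Fin n)
    (h0 : (j0 : ℕ) = 0) (h1 : (j1 : ℕ) = 1) (h : Good m n k η β j1 x y s) (hk : 1 ≤ k)
    (hkm : k < m) (hη0 : 0 ≤ η) (hη : η ≤ 1 / 100) (hβ0 : 0 ≤ β) (hβ : β * k ^ 2 ≤ 1 / 100) :
    ∃ i : Fin m, (i : ℕ) ≤ k ∧ 1 / 5 < y i := by
  by_contra hc
  push Not at hc
  have t1 := mid j0 j1 h0 h1 h hk hkm hβ0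
  have t4 := Finset.sum_filter_add_sum_filter_not (Wl m k)
    (fun i : Fin m => pos k (x j1) ≤ i + 1 ∧ (i : ℕ) ≤ pos k (x j1) + 1) y
  set S := (Wl m k).filter
    (fun i : Fin m => pos k (x j1) ≤ i + 1 ∧ (i : ℕ) ≤ pos k (x j1) + 1) with hS
  have cS : S.card ≤ (Finset.range 3).card :=
    Finset.card_le_card_of_injOn (fun i => (i : ℕ) + 1 - pos k (x j1))
      (fun i hi => by
        have := (Finset.mem_filter.1 (Finset.mem_coe.1 hi)).2
        simp only [Finset.coe_range, Set.mem_Iio]; omega)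
      (fun a ha b hb hab => by
        have := (Finset.mem_filter.1 (Finset.mem_coe.1 ha)).2
        have := (Finset.mem_filter.1 (Finset.mem_coe.1 hb)).2
        apply Fin.ext; simp only at hab; omega)
  have cS' : (S.card : ℝ) ≤ 3 := by exact_mod_cast (by simpa using cS)
  have t3 : ∑ i ∈ S, y i ≤ 3 / 5 :=
    calc _ ≤ ∑ i ∈ S, (1 / 5 : ℝ) := Finset.sum_le_sum fun i hi =>
          hc i (mem_Wl.1 (Finset.mem_filter.1 hi).1)
      _ ≤ _ := by rw [Finset.sum_const, nsmul_eq_mul]; linarith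
  obtain ⟨-, d1, -, -, -⟩ := dualB h.near hη0 hη j0 j1 h0 h1
  have d2 := (abs_le.1 d1).1
  linarith

theorem pos_tt {c : ℕ} (hk : 1 ≤ k) (hc : c ≤ k) : pos k (tt k c) = c := by
  have hk0 : (0 : ℝ) < k := by exact_mod_cast hk
  have e : (tt k c - 1) * k + 1 / 2 = c + 1 / 2 := by unfold tt; field_simp; ring
  have : ⌊(c : ℝ) + 1 / 2⌋₊ = c := by
    rw [Nat.floor_eq_iff (by positivity)]; constructor <;> linarith
  unfold pos
  rw [e, this]; omega

theorem half_sq (i c : ℕ) : (1 / 4 : ℝ) ≤ ((i : ℝ) - (c + 1 / 2)) ^ 2 := by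
  rcases le_or_gt i c with hh | hh
  · have : (i : ℝ) ≤ c := by exact_mod_cast hh
    nlinarith
  · have : (c : ℝ) + 1 ≤ i := by exact_mod_cast hh
    nlinarith

theorem arc_primal {η β : ℝ} {u : ℝ → Fin n → ℝ} {v s : ℝ → Fin m → ℝ} (j0 j1 : Fin n)
    (h0 : (j0 : ℕ) = 0) (h1 : (j1 : ℕ) = 1) (hk : 1 ≤ k) (hkm : k < m) (hη0 : 0 ≤ η)
    (hη : η ≤ 1 / 100) (hβ0 : 0 ≤ β) (hβ : β * k ^ 2 ≤ 1 / 1000) {p : ℕ}
    (hu : ContinuousOn (fun a => u a j1) (Set.Icc 0 1))
    (hG : ∀ a ∈ Set.Icc (0 : ℝ) 1, Good m n k η β j1 (u a) (v a) (s a))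
    (q0 q1 : Polynomial ℝ) (d0 : q0.natDegree ≤ p) (d1 : q1.natDegree ≤ p)
    (e0 : ∀ a ∈ Set.Icc (0 : ℝ) 1, u a j0 = q0.eval a)
    (e1 : ∀ a ∈ Set.Icc (0 : ℝ) 1, u a j1 = q1.eval a) :
    pos k (u 0 j1) ≤ pos k (u 1 j1) + p + 1 := by
  by_contra hc
  have hk0 : (0 : ℝ) < k := by exact_mod_cast hk
  have hk2 : (0 : ℝ) < (k : ℝ) ^ 2 := by positivity
  have hp := pos_le (k := k) (u 0 j1)
  have lo := pos_lo (k := k) (t := u 0 j1) (by omega)
  have hi := pos_hi (k := k) (t := u 1 j1) (by omega)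
  set c := pos k (u 1 j1) + 1 with hcd
  have c1 : (c : ℝ) = pos k (u 1 j1) + 1 := by rw [hcd]; push_cast; ring
  have c2 : (c : ℝ) + p + 1 ≤ pos k (u 0 j1) := by exact_mod_cast (show c + p + 1 ≤ _ by omega)
  have c3 : (pos k (u 0 j1) : ℝ) ≤ k := by exact_mod_cast hp
  have dg : (Polynomial.C (1 / (25 * (k : ℝ) ^ 2)) - q0 -
      Polynomial.C (1 / 2) * q1 ^ 2).natDegree ≤ 2 * p := by
    refine (Polynomial.natDegree_sub_le _ _).trans (max_le
      ((Polynomial.natDegree_sub_le _ _).trans (max_le (by rw [Polynomial.natDegree_C]; omega) (by omega))) ?_)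
    refine (Polynomial.natDegree_C_mul_le _ _).trans (Polynomial.natDegree_pow_le.trans ?_)
    omega
  have := alt hu (Polynomial.C (1 / (25 * (k : ℝ) ^ 2)) - q0 - Polynomial.C (1 / 2) * q1 ^ 2)
    (fun j => 1 + ((c : ℝ) + j / 2) / k)
    (fun i j hij => by
      have : (i : ℝ) < j := by exact_mod_cast hij
      have := div_lt_div_of_pos_right (show (c : ℝ) + i / 2 < c + j / 2 by linarith) hk0
      simp only; linarith) (2 * p + 1)
    (by
      have : u 1 j1 - 1 ≤ ((c : ℝ) + (0 : ℕ) / 2) / k := by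
        rw [le_div_iff₀ hk0]; push_cast; linarith
      linarith)
    (by
      have : ((c : ℝ) + (2 * p + 1 : ℕ) / 2) / k ≤ u 0 j1 - 1 := by
        rw [div_le_iff₀ hk0]; push_cast; linarith
      linarith)
    (fun j hj a ha e => by
      have g := hG a ha
      have jr : (j : ℝ) ≤ 2 * p + 1 := by exact_mod_cast hj
      have tk : (u a j1 - 1) * k = c + j / 2 := by rw [e]; field_simp; ring
      have t2 : u a j1 ≤ 2 := by
        have : u a j1 - 1 ≤ 1 := le_of_mul_le_mul_right (by linarith) hk0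
        linarith
      have M2 : max 1 (u a j1) ≤ 2 := max_le (by norm_num) t2
      have er := g.err
      have key : ∀ i : Fin m, (i : ℕ) ≤ k → (k : ℝ) ^ 2 * slack (A0 m n k) (b0 m k) (u a) i =
          ((i : ℕ) - (u a j1 - 1) * k) ^ 2 / 2 - (k : ℝ) ^ 2 * (u a j0 + u a j1 ^ 2 / 2) := by
        intro i hi
        rw [slack_wall _ j0 j1 h0 h1 i hi]; simp only [tt]; field_simp; ring
      have ev : (k : ℝ) ^ 2 * (Polynomial.C (1 / (25 * (k : ℝ) ^ 2)) - q0 -
          Polynomial.C (1 / 2) * q1 ^ 2).eval a =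
          1 / 25 - (k : ℝ) ^ 2 * (u a j0 + u a j1 ^ 2 / 2) := by
        simp only [Polynomial.eval_sub, Polynomial.eval_mul, Polynomial.eval_C,
          Polynomial.eval_pow, ← e0 a ha, ← e1 a ha]
        field_simp; ring
      refine lt_of_mul_lt_mul_left ?_ hk2.le
      rw [mul_zero, mul_left_comm, ev]
      rcases Nat.even_or_odd' j with ⟨r, rfl | rfl⟩
      · have hr : c + r ≤ k := by omega
        have k1 := key ⟨c + r, by omega⟩ hr
        have a1 := (abs_le.1 (g.near.hs ⟨c + r, by omega⟩)).2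
        have a2 := g.near.spos ⟨c + r, by omega⟩
        have a3 := mul_le_mul_of_nonneg_left (show -(η * (1 + ∑ j, |u a j|)) ≤
          slack (A0 m n k) (b0 m k) (u a) ⟨c + r, by omega⟩ by linarith) hk2.le
        have z : ((c + r : ℕ) : ℝ) - (c + (2 * r : ℕ) / 2) = 0 := by push_cast; ring
        rw [tk, z] at k1
        rw [pow_mul, neg_one_sq, one_pow, one_mul]
        linarith
      · obtain ⟨i, i2, i3⟩ := heavy0 j0 j1 h0 h1 g hk hkm hη0 hη hβ0 (by linarith)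
        have k1 := key i i2
        have a1 := (abs_le.1 (g.near.hs i)).1
        have a2 := g.near.spos i
        have p1 := g.prod i i2
        have p2 : β * max 1 (u a j1) ≤ β * 2 := mul_le_mul_of_nonneg_left M2 hβ0
        have q1 : s a i ≤ 10 * β := by linarith [mul_le_mul_of_nonneg_left i3.le a2]
        have a3 := mul_le_mul_of_nonneg_left (show slack (A0 m n k) (b0 m k) (u a) i ≤
          10 * β + η * (1 + ∑ j, |u a j|) by linarith) hk2.le
        have sq : (1 / 4 : ℝ) ≤ (((i : ℕ) : ℝ) - (c + (2 * r + 1 : ℕ) / 2)) ^ 2 := by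
          refine (half_sq i (c + r)).trans (le_of_eq ?_)
          push_cast; ring
        rw [tk] at k1
        rw [pow_succ, pow_mul, neg_one_sq, one_pow, one_mul]
        linarith)
  omega

theorem arc_dual {η β : ℝ} {u : ℝ → Fin n → ℝ} {v s : ℝ → Fin m → ℝ} (j0 j1 : Fin n)
    (h0 : (j0 : ℕ) = 0) (h1 : (j1 : ℕ) = 1) (hk : 1 ≤ k) (hkm : k < m) (hη0 : 0 ≤ η)
    (hη : η ≤ 1 / 100) (hβ0 : 0 ≤ β) (hβ : β * k ^ 2 ≤ 1 / 1000) {p : ℕ}
    (hu : ContinuousOn (fun a => u a j1) (Set.Icc 0 1))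
    (hG : ∀ a ∈ Set.Icc (0 : ℝ) 1, Good m n k η β j1 (u a) (v a) (s a))
    (d : ℝ → ℝ) (hd : ∀ a ∈ Set.Icc (0 : ℝ) 1, 0 < d a) (q : Fin m → Polynomial ℝ)
    (dq : ∀ i, (q i).natDegree ≤ p)
    (eq : ∀ i, ∀ a ∈ Set.Icc (0 : ℝ) 1, d a * v a i = (q i).eval a) :
    pos k (u 0 j1) ≤ pos k (u 1 j1) + 3 * p + 6 := by
  by_contra hc
  have hk0 : (0 : ℝ) < k := by exact_mod_cast hk
  have hp := pos_le (k := k) (u 0 j1)
  have lo := pos_lo (k := k) (t := u 0 j1) (by omega)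
  have hi := pos_hi (k := k) (t := u 1 j1) (by omega)
  set b := (pos k (u 1 j1) + 2) / 3 with hb
  have c1 : (pos k (u 1 j1) : ℝ) + 1 ≤ (3 * (b + 0) + 1 : ℕ) := by
    exact_mod_cast (show _ + 1 ≤ 3 * (b + 0) + 1 by omega)
  have c2 : ((3 * (b + (p + 1)) + 1 : ℕ) : ℝ) + 1 ≤ pos k (u 0 j1) := by
    exact_mod_cast (show 3 * (b + (p + 1)) + 1 + 1 ≤ _ by omega)
  have dg : (∑ i ∈ Wl m k, Polynomial.C ((-1 : ℝ) ^ (b + i / 3)) * q i).natDegree ≤ p :=
    Polynomial.natDegree_sum_le_of_forall_le _ _ fun i _ =>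
      (Polynomial.natDegree_C_mul_le _ _).trans (dq i)
  have := alt hu (∑ i ∈ Wl m k, Polynomial.C ((-1 : ℝ) ^ (b + i / 3)) * q i)
    (fun j => tt k (3 * (b + j) + 1))
    (fun i j hij => by
      have : ((3 * (b + i) + 1 : ℕ) : ℝ) < (3 * (b + j) + 1 : ℕ) := by
        exact_mod_cast (show 3 * (b + i) + 1 < 3 * (b + j) + 1 by omega)
      have := div_lt_div_of_pos_right this hk0
      simp only [tt]; linarith) (p + 1)
    (by
      have : u 1 j1 - 1 ≤ ((3 * (b + 0) + 1 : ℕ) : ℝ) / k := by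
        rw [le_div_iff₀ hk0]; linarith
      simp only [tt]; linarith)
    (by
      have : ((3 * (b + (p + 1)) + 1 : ℕ) : ℝ) / k ≤ u 0 j1 - 1 := by
        rw [div_le_iff₀ hk0]; linarith
      simp only [tt]; linarith)
    (fun j hj a ha e => by
      have g := hG a ha
      have ps : pos k (u a j1) = 3 * (b + j) + 1 := by rw [e]; exact pos_tt hk (by omega)
      have t1 := mid j0 j1 h0 h1 g hk hkm hβ0
      obtain ⟨-, d1, -, -, -⟩ := dualB g.near hη0 hη j0 j1 h0 h1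
      have d2 := (abs_le.1 d1).1
      rw [ps, Finset.sum_filter] at t1
      have ev : (-1 : ℝ) ^ j * (∑ i ∈ Wl m k,
          Polynomial.C ((-1 : ℝ) ^ (b + i / 3)) * q i).eval a =
          d a * ∑ i ∈ Wl m k, (-1 : ℝ) ^ (j + (b + i / 3)) * v a i := by
        rw [Polynomial.eval_finsetSum, Finset.mul_sum, Finset.mul_sum]
        refine Finset.sum_congr rfl fun i _ => ?_
        rw [Polynomial.eval_mul, Polynomial.eval_C, ← eq i a ha, pow_add (-1 : ℝ) j]; ring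
      rw [ev]
      refine mul_pos (hd a ha) (lt_of_lt_of_le ?_ (Finset.sum_le_sum (f := fun i : Fin m =>
        v a i - 2 * if ¬ (3 * (b + j) + 1 ≤ i + 1 ∧ (i : ℕ) ≤ 3 * (b + j) + 1 + 1)
          then v a i else 0) fun i _ => ?_))
      · rw [Finset.sum_sub_distrib, ← Finset.mul_sum]; linarith
      · have y0 := g.near.ypos i
        split_ifs with hh
        · have : (-1 : ℝ) ^ (j + (b + i / 3)) = 1 :=
            Even.neg_one_pow ⟨b + j, by omega⟩
          rw [this]; linarith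
        · rcases neg_one_pow_eq_or ℝ (j + (b + i / 3)) with h | h <;> rw [h] <;> linarith)
  omega

end Pool.Agent.Work.MP_6af739_lc.LB
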