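import Pool.Agent.Work.MP_6af739_lc.LB.Arc

/-!
The lower bound for programs near the nominal one.
-/

namespace Pool.Agent.Work.MP_6af739_lc.LB

open Finset

variable {m n k : ℕ}

theorem core {γ : ℝ} (hγ : 0 < γ) (hγ1 : γ ≤ 1) (hn : 2 ≤ n) (hnm : 4 * n ≤ m) (hk : 1 ≤ k)
    (hkm : 10000 * (k : ℝ) ^ 2 ≤ γ ^ 3 * m) {A : Matrix (Fin m) (Fin n) ℝ} {b : Fin m → ℝ}
    {c : Fin n → ℝ} (hA : ∀ i j, |A i j - A0 m n k i j| ≤ 1 / (m : ℝ) ^ 2)
    (hb : ∀ i, |b i - b0 m k i| ≤ 1 / (m : ℝ) ^ 2) (hc : ∀ j, |c j - c0 n j| ≤ 1 / (m : ℝ) ^ 2)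
    {p T : ℕ} {α β' : ℕ → ℝ} {x : ℕ → Fin n → ℝ} {y : ℕ → Fin m → ℝ}
    (hR : Run γ p A b c T α β' x y) (h0 : 5 ≤ gap A b (x 0) (y 0))
    (hT : gap A b (x T) (y T) ≤ 1 / 2 ∨ ∃ B, Mono A b (x T) (y T) B ∧ Opt A b c B)
    (hB : (∀ l ≤ T, Bal γ A b (x l) (y l)) ∨
      (α = β' ∧ Bal γ A b (x 0) (y 0) ∧ gap A b (x 0) (y 0) ≤ 10)) :
    k ≤ (3 * p + 6) * T + 1 := by
  have hk1 : (1 : ℝ) ≤ k := by exact_mod_cast hk
  have g2 : γ ^ 2 ≤ 1 := pow_le_one₀ hγ.le hγ1
  have g3 : γ ^ 3 ≤ γ ^ 2 := by nlinarith [sq_nonneg γ]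
  have hm0' : (0 : ℝ) ≤ m := by positivity
  have q1 : 1000 * (k : ℝ) ^ 2 ≤ γ ^ 2 * m := by nlinarith
  have q2 : 1000 * (k : ℝ) ^ 2 ≤ m := by nlinarith
  have q3 : (1000 : ℝ) * k ≤ m := by nlinarith
  have q4 : 1000 * k ≤ m := by exact_mod_cast q3
  have q5 : (4 : ℝ) * n ≤ m := by exact_mod_cast hnm
  have hm0 : (0 : ℝ) < m := by linarith
  set η : ℝ := 1 / (m : ℝ) ^ 2 with hηd
  have hη0 : 0 ≤ η := by positivity
  have hηm : η * m ^ 2 = 1 := by rw [hηd]; field_simp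
  have hη1 : η * m ≤ 1 / 1000 := by nlinarith
  have hη : η ≤ 1 / 100 := by nlinarith
  have hε : 300 * (k : ℝ) ^ 2 * (η * (n + 3)) ≤ 1 := by
    have a : (n : ℝ) + 3 ≤ m := by linarith
    have b : (k : ℝ) ^ 2 * (n + 3) ≤ (m / 1000) * m :=
      mul_le_mul (by linarith) a (by positivity) (by positivity)
    nlinarith
  have hε' : 300 * (η * (n + 3)) ≤ 1 := by
    have : 0 ≤ η * (n + 3) := by positivity
    nlinarith
  set β : ℝ := 10 / (γ ^ 2 * m) with hβd
  have hβ0 : 0 ≤ β := by positivity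
  have hβm : β * (γ ^ 2 * m) = 10 := by rw [hβd]; field_simp
  have hβ : 10 * β * k ^ 2 ≤ γ / 100 := by
    have := mul_le_mul_of_nonneg_left hkm hβ0
    nlinarith
  have hβ1 : (k + 1) * (10 * β) ≤ 1 / 50 := by
    have : (k : ℝ) + 1 ≤ 2 * k ^ 2 := by nlinarith
    nlinarith [mul_le_mul_of_nonneg_right this hβ0]
  have hβ2 : (k + 1) * β ≤ 1 / 50 := by nlinarith
  have h52 : 52 * η * (k + 1) ≤ γ ^ 2 * m / 4 := by nlinarith
  obtain ⟨j0, e0⟩ : ∃ j : Fin n, (j : ℕ) = 0 := ⟨⟨0, by omega⟩, rfl⟩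
  obtain ⟨j1, e1⟩ : ∃ j : Fin n, (j : ℕ) = 1 := ⟨⟨1, by omega⟩, rfl⟩
  have near : ∀ x y, Feas A b c x y → Near m n k η x y (slack A b x) := fun x y h =>
    ⟨fun i => (h.1 i).le, fun i => (h.2.1 i).le, slack_near hA hb x,
      dual_near hA hc (fun i => (h.2.1 i).le) h.2.2⟩
  have hF := fun l hl => (hR.1 l hl).1
  have hW := fun l hl => (hR.1 l hl).2
  have hS := fun l (hl : l < T) (h : α l ∈ Set.Icc (0 : ℝ) 1 ∧ β' l ∈ Set.Icc (0 : ℝ) 1 ∧
      Step A b (x l) (y l) (α l) (β' l) (x (l + 1)) (y (l + 1))) =>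
    step_facts (hF l hl.le) (hF (l + 1) hl) h.1 h.2.1 h.2.2
  have hP : ∀ l ≤ T, ∀ i, slack A b (x l) i * y l i ≤ β * max 1 (x l j1) := by
    rcases hB with hB | ⟨hab, hB, h10⟩
    · exact fun l hl i => two_sided (near _ _ (hF l hl)) (by omega) (by omega) hη0 hη hε' j0 j1
        e0 e1 hγ hβm h52 (hW l hl) (hB l hl) i
    · have hb : 10 / (m : ℝ) ≤ γ * β := by
        rw [div_le_iff₀ hm0]
        have : 0 ≤ β * (γ * m) := by positivity
        nlinarith
      have inv : ∀ l ≤ T, gap A b (x l) (y l) ≤ 10 ∧ ∀ i, slack A b (x l) i * y l i ≤ β := by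
        intro l
        induction l with
        | zero =>
          refine fun _ => ⟨h10, fun i => le_of_mul_le_mul_left ?_ hγ⟩
          exact (hB i).trans ((div_le_div_of_nonneg_right h10 hm0.le).trans hb)
        | succ l ih =>
          intro hl
          obtain ⟨i1, i2⟩ := ih (by omega)
          rcases hR.2 l hl with hN | ⟨u, v, -, -, -, u1, v1, gl, hA', -⟩
          · obtain ⟨-, z, z1, -, s2, -, s1⟩ := hS l hl hN
            obtain rfl := z1 (by rw [hab])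
            exact ⟨s1.trans i1, fun i => keep ((hF l (by omega)).1 i) ((hF l (by omega)).2.1 i)
              ((hF _ hl).1 i) ((hF _ hl).2.1 i) (hW l (by omega) i) (s2 i) (i2 i)
              ((div_le_div_of_nonneg_right i1 hm0.le).trans hb)⟩
          · have bl := (hA' 1 ⟨zero_le_one, le_rfl⟩).2.2
            rw [u1, v1] at bl
            refine ⟨gl.trans i1, fun i => le_of_mul_le_mul_left ?_ hγ⟩
            exact (bl i).trans ((div_le_div_of_nonneg_right (gl.trans i1) hm0.le).trans hb)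
      exact fun l hl i => ((inv l hl).2 i).trans
        (le_mul_of_one_le_right hβ0 (le_max_left _ _))
  have hG : ∀ l ≤ T, Good m n k η (10 * β) j1 (x l) (y l) (slack A b (x l)) := fun l hl =>
    good_of (near _ _ (hF l hl)) (by omega) hk hη0 hη hε j0 j1 e0 e1 (by positivity) hβ1
      fun i _ => (hP l hl i).trans (mul_le_mul_of_nonneg_right (by linarith) (by positivity))
  have mv : ∀ l < T, (α l ∈ Set.Icc (0 : ℝ) 1 ∧ β' l ∈ Set.Icc (0 : ℝ) 1 ∧
      Step A b (x l) (y l) (α l) (β' l) (x (l + 1)) (y (l + 1))) →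
      pos k (x l j1) ≤ pos k (x (l + 1) j1) + 2 := by
    intro l hl hN
    obtain ⟨s0, z, z1, z2, s2, s3, -⟩ := hS l hl hN
    have fl := hF l hl.le
    by_cases h2 : β' l ≤ 2 * α l
    · exact move j0 j1 e0 e1 (hG l hl.le) (hG _ hl) hk (by omega) hη0 hη hγ hγ1 (by positivity)
        hβ fun i => grow (fl.1 i) (fl.2.1 i) hγ1 hγ (hW l hl.le i) (s0 h2 i)
    · have a0 := hN.1.1
      have b1 := hN.2.1.2
      have fz := z2 (by linarith)
      have hbal : Bal γ A b (x l) (y l) := by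
        rcases hB with hB | ⟨hab, -, -⟩
        · exact hB l hl.le
        · rw [hab] at h2 a0; linarith
      have g0 : 0 ≤ gap A b (x l) (y l) :=
        Finset.sum_nonneg fun i _ => (mul_pos (fl.1 i) (fl.2.1 i)).le
      have hμ : gap A b (x l) (y l) / m ≤ γ * (gap A b (x l) (y l) / m / γ) := by
        rw [mul_div_cancel₀ _ hγ.ne']
      have hmu : gap A b (x l) (y l) / m / γ ≤ β * max 1 (x l j1) :=
        two_sided' (near _ _ fl) (by omega) (by omega) hη0 hη hε' j0 j1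
          e0 e1 hγ hβm h52 (hW l hl.le) hbal
      have pz : ∀ i, slack A b (x (l + 1)) i * z i ≤ β * max 1 (x l j1) := fun i =>
        keep (fl.1 i) (fl.2.1 i) (fz.1 i) (fz.2.1 i) (hW l hl.le i) (s2 i) (hP l hl.le i)
          (hμ.trans (mul_le_mul_of_nonneg_left hmu hγ.le))
      have cmp := scale_cmp j0 j1 e0 e1 (hG l hl.le) (near _ _ fz) (by omega) hk hη0 hη hε' hβ0
        hβ2 pz (by unfold gap at s3 g0; nlinarith)
      have gz := good_of (β := 10 * β) (near _ _ fz) (by omega) hk hη0 hη hε j0 j1 e0 e1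
        (by positivity) hβ1 fun i _ => (pz i).trans (by nlinarith)
      exact move j0 j1 e0 e1 (hG l hl.le) gz hk (by omega) hη0 hη hγ hγ1 (by positivity)
        hβ fun i => grow (fl.1 i) (fl.2.1 i) hγ1 hγ (hW l hl.le i) (by
          have a := mul_pos (fl.2.1 i) (fz.1 i)
          have a' := mul_pos (fl.1 i) (fl.2.1 i)
          linarith [s2 i])
  have mv2 : ∀ l < T, pos k (x l j1) ≤ pos k (x (l + 1) j1) + (3 * p + 6) := by
    intro l hl
    rcases hR.2 l hl with hN | ⟨u, v, hu, u0, -, u1, -, -, hA', hq⟩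
    · have := mv l hl hN
      omega
    · have hu' : ContinuousOn (fun a => u a j1) (Set.Icc 0 1) := continuousOn_pi.1 hu j1
      have gA : ∀ a ∈ Set.Icc (0 : ℝ) 1, Good m n k η β j1 (u a) (v a) (slack A b (u a)) :=
        fun a ha => good_of (near _ _ (hA' a ha).1) (by omega) hk hη0 hη hε j0 j1 e0 e1 hβ0 hβ2
          fun i _ => two_sided (near _ _ (hA' a ha).1) (by omega) (by omega) hη0 hη hε' j0 j1
            e0 e1 hγ hβm h52 (hA' a ha).2.1 (hA' a ha).2.2 i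
      rw [← u0, ← u1]
      rcases hq with hq | ⟨d, hd, hq⟩
      · obtain ⟨q0, d0, f0⟩ := hq j0
        obtain ⟨q1, d1, f1⟩ := hq j1
        have := arc_primal j0 j1 e0 e1 hk (by omega) hη0 hη hβ0 (by linarith) hu' gA
          q0 q1 d0 d1 f0 f1
        omega
      · choose q dq eq using hq
        have := arc_dual j0 j1 e0 e1 hk (by omega) hη0 hη hβ0 (by linarith) hu' gA d hd q dq eq
        omega
  have ch : ∀ l ≤ T, k ≤ pos k (x l j1) + (3 * p + 6) * l := by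
    intro l
    induction l with
    | zero =>
      intro hl
      rw [pos_top ((ends j0 j1 e0 e1 (hG 0 hl) hk hη0 hη (by positivity) hβ1).1 h0)]; omega
    | succ l ih =>
      intro hl
      have a := ih (by omega)
      have b := mv2 l hl
      rw [Nat.mul_succ]
      omega
  have := ch T le_rfl
  rcases hT with hT | ⟨B, hM, u, v, o1, o2, o3, o4, o5⟩
  · rw [pos_bot ((ends j0 j1 e0 e1 (hG T le_rfl) hk hη0 hη (by positivity) hβ1).2 hT)] at this
    omega
  · by_contra hc'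
    obtain ⟨i0, hi0⟩ : ∃ i : Fin m, (i : ℕ) = 0 := ⟨⟨0, by omega⟩, rfl⟩
    obtain ⟨i, i1, i2, i3, i4⟩ := heavy j0 j1 e0 e1 (hG T le_rfl) hk (by omega) hη0 hη
      (by positivity) (by linarith) (by omega) i0 hi0
    obtain ⟨b1, b2⟩ := optB (k := k) j0 j1 e0 e1
      ⟨o1, o2, slack_near hA hb u, dual_near hA hc o2 o3⟩ (by omega) hk hη0 hη hε o4 o5 i0 hi0
    exact b2 i i1 i2 (hM i i0 b1 i3 i4)

end Pool.Agent.Work.MP_6af739_lc.LB
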