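import Pool.Agent.Work.MP_6af739_lc.LB.Stat

/-!
Existence of central points, and of a run along the central path.
-/

namespace Pool.Agent.Work.MP_6af739_lc.LB

open Finset Filter Topology

variable {m n k : ℕ}

theorem exists_center (A : Matrix (Fin m) (Fin n) ℝ) (b : Fin m → ℝ) (c x0 : Fin n → ℝ)
    {μ κ C L : ℝ} (hμ : 0 < μ) (hκ : 0 < κ) (h0 : ∀ i, 0 < slack A b x0 i)
    (hco : ∀ x, (∀ i, 0 ≤ slack A b x i) → ∑ j, c j * x j ≤ C - κ * (1 + ∑ j, |x j|) ∧
      ∀ i, slack A b x i ≤ L * (1 + ∑ j, |x j|)) :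
    ∃ x y, Feas A b c x y ∧ ∀ i, slack A b x i * y i = μ := by
  set F : (Fin n → ℝ) → ℝ := fun x => Real.exp ((∑ j, c j * x j) / μ) * ∏ i, slack A b x i with hF
  have cs : ∀ i, Continuous fun x => slack A b x i := fun i => by unfold slack; fun_prop
  have cF : Continuous F := by
    refine Continuous.mul (by fun_prop) (continuous_finsetProd _ fun i _ => cs i)
  have F0 : 0 < F x0 := mul_pos (Real.exp_pos _) (Finset.prod_pos fun i _ => h0 i)
  have lim : Tendsto (fun Q : ℝ => Real.exp ((C - κ * Q) / μ) * (L * Q) ^ m) atTop (𝓝 0) := by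
    have a := (Real.tendsto_pow_mul_exp_neg_atTop_nhds_zero m).comp
      (tendsto_id.const_mul_atTop (div_pos hκ hμ))
    have a2 := a.const_mul (Real.exp (C / μ) * (L * μ / κ) ^ m)
    rw [mul_zero] at a2
    refine a2.congr fun Q => ?_
    have e1 : (C - κ * Q) / μ = C / μ + -(κ / μ * Q) := by ring
    have e2 : L * Q = L * μ / κ * (κ / μ * Q) := by field_simp
    simp only [Function.comp, id]
    rw [e1, e2, Real.exp_add, mul_pow (L * μ / κ)]; ring
  obtain ⟨R, hR⟩ := eventually_atTop.1 (lim.eventually (gt_mem_nhds F0))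
  have far : ∀ x, (∀ i, 0 ≤ slack A b x i) → R ≤ 1 + ∑ j, |x j| → F x < F x0 := by
    intro x hx hQ
    refine lt_of_le_of_lt ?_ (hR _ hQ)
    obtain ⟨a1, a2⟩ := hco x hx
    refine mul_le_mul (Real.exp_le_exp.2 (div_le_div_of_nonneg_right a1 hμ.le)) ?_
      (Finset.prod_nonneg fun i _ => hx i) (Real.exp_pos _).le
    calc _ ≤ ∏ _i : Fin m, L * (1 + ∑ j, |x j|) :=
          Finset.prod_le_prod (fun i _ => hx i) fun i _ => a2 i
      _ = _ := by simp
  set K : Set (Fin n → ℝ) := {x | (∀ i, 0 ≤ slack A b x i) ∧ 1 + ∑ j, |x j| ≤ R} with hK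
  have k0 : x0 ∈ K := ⟨fun i => (h0 i).le, by
    by_contra hc
    exact lt_irrefl _ (far x0 (fun i => (h0 i).le) (le_of_not_ge hc))⟩
  have cK : IsCompact K := by
    apply Metric.isCompact_of_isClosed_isBounded
    · rw [hK, Set.ofPred_and, Set.ofPred_forall]
      exact (isClosed_iInter fun i => isClosed_le continuous_const (cs i)).inter
        (isClosed_le (by fun_prop) continuous_const)
    · refine (Metric.isBounded_closedBall (x := (0 : Fin n → ℝ)) (r := R)).subset fun x hx => ?_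
      have s0 : 0 ≤ ∑ j, |x j| := by positivity
      rw [mem_closedBall_zero_iff, pi_norm_le_iff_of_nonneg (by linarith [hx.2])]
      intro j
      have := Finset.single_le_sum (f := fun j => |x j|) (fun j _ => abs_nonneg _) (mem_univ j)
      rw [Real.norm_eq_abs]; linarith [hx.2]
  obtain ⟨x, hx, hmax⟩ := cK.exists_isMaxOn ⟨x0, k0⟩ cF.continuousOn
  have Fx : F x0 ≤ F x := hmax k0
  have glob : ∀ z, (∀ i, 0 ≤ slack A b z i) → F z ≤ F x := fun z hz => by
    by_cases hq : 1 + ∑ j, |z j| ≤ R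
    · exact hmax ⟨hz, hq⟩
    · exact (far z hz (le_of_not_ge hq)).le.trans Fx
  have sp : ∀ i, 0 < slack A b x i := fun i => by
    refine lt_of_le_of_ne (hx.1 i) fun h => ?_
    have : F x = 0 := by
      simp only [hF]; rw [Finset.prod_eq_zero (mem_univ i) h.symm, mul_zero]
    linarith
  refine ⟨x, fun i => μ / slack A b x i, ⟨sp, fun i => div_pos hμ (sp i), fun j => ?_⟩,
    fun i => mul_div_cancel₀ _ (sp i).ne'⟩
  have sl : ∀ (h : ℝ) i, slack A b (x + Pi.single j h) i = slack A b x i - h * A i j := by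
    intro h i; unfold slack
    simp only [Pi.add_apply, mul_add, Finset.sum_add_distrib, Pi.single_apply, mul_ite, mul_zero,
      Finset.sum_ite_eq', mem_univ, if_true]; ring
  have ob : ∀ h : ℝ, ∑ l, c l * (x + Pi.single j h : Fin n → ℝ) l = ∑ l, c l * x l + h * c j := by
    intro h
    simp only [Pi.add_apply, mul_add, Finset.sum_add_distrib, Pi.single_apply, mul_ite, mul_zero,
      Finset.sum_ite_eq', mem_univ, if_true]; ring
  have ev : ∀ᶠ h : ℝ in 𝓝 0, ∀ i, 0 < slack A b x i - h * A i j := by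
    rw [eventually_all]; intro i
    have : Continuous fun h : ℝ => slack A b x i - h * A i j := by fun_prop
    exact this.continuousAt.eventually (lt_mem_nhds (by simpa using sp i))
  have lm : IsLocalMax (fun h : ℝ => h * c j / μ + ∑ i, Real.log (slack A b x i - h * A i j)) 0 := by
    filter_upwards [ev] with h hh
    have a := glob (x + Pi.single j h) fun i => by rw [sl]; exact (hh i).le
    simp only [hF, sl, ob] at a
    have a2 := Real.log_le_log (mul_pos (Real.exp_pos _) (Finset.prod_pos fun i _ => hh i)) a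
    rw [Real.log_mul (Real.exp_pos _).ne' (Finset.prod_pos fun i _ => hh i).ne',
      Real.log_mul (Real.exp_pos _).ne' (Finset.prod_pos fun i _ => sp i).ne', Real.log_exp,
      Real.log_exp, Real.log_prod (fun i _ => (hh i).ne'),
      Real.log_prod (fun i _ => (sp i).ne'), add_div] at a2
    simp only [zero_mul, zero_div, zero_add, sub_zero]
    linarith
  have dv : HasDerivAt (fun h : ℝ => h * c j / μ + ∑ i, Real.log (slack A b x i - h * A i j))
      (1 * c j / μ + ∑ i, (-(1 * A i j)) / (slack A b x i - 0 * A i j)) 0 := by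
    refine (((hasDerivAt_id (0 : ℝ)).mul_const _).div_const _).add
      (HasDerivAt.fun_sum fun i _ => HasDerivAt.log ?_ (by simpa using (sp i).ne'))
    exact ((hasDerivAt_id (0 : ℝ)).mul_const _).const_sub _
  have z := lm.hasDerivAt_eq_zero dv
  simp only [one_mul, zero_mul, sub_zero, neg_div, Finset.sum_neg_distrib] at z
  have : ∑ i, A i j * (μ / slack A b x i) = μ * ∑ i, A i j / slack A b x i := by
    rw [Finset.mul_sum]; exact Finset.sum_congr rfl fun i _ => by ring
  rw [this, show ∑ i, A i j / slack A b x i = c j / μ by linarith]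
  field_simp

theorem step_center {A : Matrix (Fin m) (Fin n) ℝ} {b : Fin m → ℝ} {c x x' : Fin n → ℝ}
    {y y' : Fin m → ℝ} {μ ε : ℝ} (hμ : 0 < μ) (hε : 0 ≤ ε) (hε1 : ε ≤ 1 / 2) (hm : m * ε ≤ 2)
    (h : Feas A b c x y) (h' : Feas A b c x' y') (hc : ∀ i, slack A b x i * y i = μ)
    (hc' : ∀ i, slack A b x' i * y' i = (1 - ε) ^ 2 * μ) : Step A b x y 1 1 x' y' := by
  have g : gap A b x y = m * μ := by simp [gap, hc]
  have g' : gap A b x' y' = m * ((1 - ε) ^ 2 * μ) := by simp [gap, hc']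
  have hm0 : (0 : ℝ) ≤ m := by positivity
  have tot : ∑ i, (y i * slack A b x' i + slack A b x i * y' i) =
      m * μ + m * ((1 - ε) ^ 2 * μ) := by
    have e1 := gap_eq A b x y
    have e2 := gap_eq A b x' y
    have e3 := gap_eq A b x y'
    have e4 := gap_eq A b x' y'
    simp only [h.2.2, h'.2.2] at e1 e2 e3 e4
    unfold gap at g g'
    simp only [Finset.sum_add_distrib, mul_comm (y _) (slack A b x' _)]
    linarith
  have low : ∀ l, 0 ≤ y l * slack A b x' l + slack A b x l * y' l - 2 * (1 - ε) * μ := by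
    intro l
    have a := mul_pos (h.2.1 l) (h'.1 l)
    have a' := mul_pos (h.1 l) (h'.2.1 l)
    have pr : (y l * slack A b x' l) * (slack A b x l * y' l) = ((1 - ε) * μ) ^ 2 := by
      calc _ = (slack A b x l * y l) * (slack A b x' l * y' l) := by ring
        _ = _ := by rw [hc, hc']; ring
    have : (2 * (1 - ε) * μ) ^ 2 ≤ (y l * slack A b x' l + slack A b x l * y' l) ^ 2 := by
      nlinarith [sq_nonneg (y l * slack A b x' l - slack A b x l * y' l)]
    linarith [abs_le_of_sq_le_sq' this (by linarith)]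
  refine ⟨x' - x, y' - y, fun i => y i * slack A b x' i + slack A b x i * y' i - μ,
    fun i => ⟨?_, le_trans ?_ (le_max_left _ _)⟩, ?_, fun j => ?_, fun i => ?_, by simp, by simp⟩
  · have := low i
    beta_reduce
    nlinarith
  · have one := Finset.single_le_sum (fun l _ => low l) (mem_univ i)
    rw [Finset.sum_sub_distrib, tot] at one
    simp only [Finset.sum_const, Finset.card_univ, Fintype.card_fin, nsmul_eq_mul] at one
    beta_reduce
    rw [hc]
    have : m * ε * (ε * μ) ≤ 2 * (ε * μ) := mul_le_mul_of_nonneg_right hm (by positivity)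
    nlinarith
  · rw [Finset.sum_sub_distrib, tot, g]
    simp only [Finset.sum_const, Finset.card_univ, Fintype.card_fin, nsmul_eq_mul]
    have : (1 - ε) ^ 2 ≤ 1 := by nlinarith
    have : (m : ℝ) * ((1 - ε) ^ 2 * μ) ≤ m * μ := mul_le_mul_of_nonneg_left (by nlinarith) hm0
    linarith
  · simp only [Pi.sub_apply, mul_sub, Finset.sum_sub_distrib, h.2.2, h'.2.2, sub_self]
  · have : -∑ j, A i j * (x' - x) j = slack A b x' i - slack A b x i := by
      unfold slack; simp only [Pi.sub_apply, mul_sub, Finset.sum_sub_distrib]; ring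
    rw [this, ← hc i]; simp only [Pi.sub_apply]; ring

theorem exists_run {A : Matrix (Fin m) (Fin n) ℝ} {b : Fin m → ℝ} {c : Fin n → ℝ} {γ g : ℝ}
    (hγ1 : γ ≤ 1) (hg : 0 < g) (hm : 1 ≤ m)
    (hc : ∀ μ, 0 < μ → ∃ x y, Feas A b c x y ∧ ∀ i, slack A b x i * y i = μ) :
    ∃ (T : ℕ) (x : ℕ → Fin n → ℝ) (y : ℕ → Fin m → ℝ), Run γ 0 A b c T 1 1 x y ∧
      (∀ l ≤ T, Bal γ A b (x l) (y l)) ∧ gap A b (x 0) (y 0) = 15 * g ∧
      gap A b (x T) (y T) ≤ g := by
  have hm1 : (1 : ℝ) ≤ m := by exact_mod_cast hm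
  set ε : ℝ := 1 / (2 * m) with hε
  have e0 : 0 < ε := by positivity
  have e1 : ε ≤ 1 / 2 := by rw [hε]; apply one_div_le_one_div_of_le <;> linarith
  have e2 : m * ε ≤ 2 := by rw [hε]; field_simp; norm_num
  have q0 : 0 < (1 - ε) ^ 2 := pow_pos (by linarith) 2
  have q1 : (1 - ε) ^ 2 < 1 := by nlinarith
  have pos : ∀ l : ℕ, 0 < ((1 - ε) ^ 2) ^ l * (15 * g / m) := fun l => by positivity
  choose x y hf hp using fun l => hc _ (pos l)
  have gp : ∀ l, gap A b (x l) (y l) = m * (((1 - ε) ^ 2) ^ l * (15 * g / m)) := fun l => by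
    simp [gap, hp]
  have gq : ∀ l, gap A b (x l) (y l) / m = ((1 - ε) ^ 2) ^ l * (15 * g / m) := fun l => by
    rw [gp]; field_simp
  obtain ⟨T, hT⟩ := exists_pow_lt_of_lt_one (show (0 : ℝ) < 1 / 15 by norm_num) q1
  refine ⟨T, x, y, ⟨fun l _ => ⟨hf l, fun i => ?_⟩, fun l _ => ?_⟩, fun l _ i => ?_, ?_, ?_⟩
  · rw [gq, hp]; nlinarith [pos l]
  · exact Or.inl ⟨by simp, by simp,
      step_center (pos l) e0.le e1 e2 (hf l) (hf _) (hp l) fun i => by rw [hp]; ring⟩
  · rw [gq, hp]; nlinarith [pos l]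
  · rw [gp]; field_simp
  · rw [gp]
    have : (m : ℝ) * (((1 - ε) ^ 2) ^ T * (15 * g / m)) = ((1 - ε) ^ 2) ^ T * (15 * g) := by
      field_simp
    rw [this]; nlinarith

end Pool.Agent.Work.MP_6af739_lc.LB
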