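import Mathlib

/-!
Primal-dual Newton runs in the wide neighbourhood for `max c·x, A x ≤ b`.
-/

namespace Pool.Agent.Work.MP_6af739_lc.LB

variable {m n : ℕ}

/-- The slack `s = b - A x`. -/
def slack (A : Matrix (Fin m) (Fin n) ℝ) (b : Fin m → ℝ) (x : Fin n → ℝ) (i : Fin m) : ℝ :=
  b i - ∑ j, A i j * x j

/-- The duality gap `s · y`; the usual `μ` is `gap / m`. -/
def gap (A : Matrix (Fin m) (Fin n) ℝ) (b : Fin m → ℝ) (x : Fin n → ℝ) (y : Fin m → ℝ) : ℝ :=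
  ∑ i, slack A b x i * y i

/-- Strict primal-dual feasibility: `s > 0`, `y > 0`, `Aᵀ y = c`. -/
def Feas (A : Matrix (Fin m) (Fin n) ℝ) (b : Fin m → ℝ) (c x : Fin n → ℝ) (y : Fin m → ℝ) :
    Prop :=
  (∀ i, 0 < slack A b x i) ∧ (∀ i, 0 < y i) ∧ ∀ j, ∑ i, A i j * y i = c j

/-- The wide neighbourhood: `s_i y_i ≥ γ μ` for all `i`. -/
def Wide (γ : ℝ) (A : Matrix (Fin m) (Fin n) ℝ) (b : Fin m → ℝ) (x : Fin n → ℝ)
    (y : Fin m → ℝ) : Prop :=
  ∀ i, γ * (gap A b x y / m) ≤ slack A b x i * y i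

/-- The opposite bound: `γ s_i y_i ≤ μ` for all `i`. -/
def Bal (γ : ℝ) (A : Matrix (Fin m) (Fin n) ℝ) (b : Fin m → ℝ) (x : Fin n → ℝ)
    (y : Fin m → ℝ) : Prop :=
  ∀ i, γ * (slack A b x i * y i) ≤ gap A b x y / m

/-- One iteration: `(dx, dy)` is the Newton direction at `(x, y)` for the equations `Aᵀ y = c`,
`s_i y_i = w_i` (with `ds = -A dx`), for some target `w` with `0 ≤ w_i ≤ max (s_i y_i) μ` and
`∑ w_i ≤ gap`; the primal step length is `α` and the dual step length is `β`. -/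
def Step (A : Matrix (Fin m) (Fin n) ℝ) (b : Fin m → ℝ) (x : Fin n → ℝ) (y : Fin m → ℝ)
    (α β : ℝ) (x' : Fin n → ℝ) (y' : Fin m → ℝ) : Prop :=
  ∃ (dx : Fin n → ℝ) (dy w : Fin m → ℝ),
    (∀ i, 0 ≤ w i ∧ w i ≤ max (slack A b x i * y i) (gap A b x y / m)) ∧
    ∑ i, w i ≤ gap A b x y ∧ (∀ j, ∑ i, A i j * dy i = 0) ∧
    (∀ i, slack A b x i * dy i + y i * (-∑ j, A i j * dx j) = w i - slack A b x i * y i) ∧
    x' = x + α • dx ∧ y' = y + β • dy

/-- One iteration along a curve `(u a, v a)`, `0 ≤ a ≤ 1`, in any direction: the curve stays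
strictly feasible and in the two-sided neighbourhood, the gap at the end is at most the gap at the
start, and either `u` is polynomial of degree at most `p`, or `v` is polynomial of degree at most
`p` up to a common positive denominator. -/
def Arc (γ : ℝ) (p : ℕ) (A : Matrix (Fin m) (Fin n) ℝ) (b : Fin m → ℝ) (c x : Fin n → ℝ)
    (y : Fin m → ℝ) (x' : Fin n → ℝ) (y' : Fin m → ℝ) : Prop :=
  ∃ (u : ℝ → Fin n → ℝ) (v : ℝ → Fin m → ℝ), ContinuousOn u (Set.Icc 0 1) ∧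
    u 0 = x ∧ v 0 = y ∧ u 1 = x' ∧ v 1 = y' ∧ gap A b x' y' ≤ gap A b x y ∧
    (∀ a ∈ Set.Icc (0 : ℝ) 1,
      Feas A b c (u a) (v a) ∧ Wide γ A b (u a) (v a) ∧ Bal γ A b (u a) (v a)) ∧
    ((∀ j, ∃ q : Polynomial ℝ, q.natDegree ≤ p ∧ ∀ a ∈ Set.Icc (0 : ℝ) 1, u a j = q.eval a) ∨
      ∃ d : ℝ → ℝ, (∀ a ∈ Set.Icc (0 : ℝ) 1, 0 < d a) ∧ ∀ i, ∃ q : Polynomial ℝ,
        q.natDegree ≤ p ∧ ∀ a ∈ Set.Icc (0 : ℝ) 1, d a * v a i = q.eval a)

/-- A run of `T` iterations through strictly feasible points of the wide neighbourhood; each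
iteration is a Newton step with step lengths in `[0, 1]` or a curve of degree at most `p`. -/
def Run (γ : ℝ) (p : ℕ) (A : Matrix (Fin m) (Fin n) ℝ) (b : Fin m → ℝ) (c : Fin n → ℝ) (T : ℕ)
    (α β : ℕ → ℝ) (x : ℕ → Fin n → ℝ) (y : ℕ → Fin m → ℝ) : Prop :=
  (∀ l ≤ T, Feas A b c (x l) (y l) ∧ Wide γ A b (x l) (y l)) ∧
    ∀ l < T, (α l ∈ Set.Icc (0 : ℝ) 1 ∧ β l ∈ Set.Icc (0 : ℝ) 1 ∧
      Step A b (x l) (y l) (α l) (β l) (x (l + 1)) (y (l + 1))) ∨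
      Arc γ p A b c (x l) (y l) (x (l + 1)) (y (l + 1))

/-- The guess `B` of the tight rows is monotone at `(x, y)`: a row with less than a third of the
slack and more than three times the multiplier of some row of `B` is also in `B`. -/
def Mono (A : Matrix (Fin m) (Fin n) ℝ) (b : Fin m → ℝ) (x : Fin n → ℝ) (y : Fin m → ℝ)
    (B : Set (Fin m)) : Prop :=
  ∀ i j, j ∈ B → 3 * slack A b x i < slack A b x j → 3 * y j < y i → i ∈ B

/-- The guess `B` solves the program: some feasible point has all rows of `B` tight and some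
dual feasible point vanishes outside `B`. -/
def Opt (A : Matrix (Fin m) (Fin n) ℝ) (b : Fin m → ℝ) (c : Fin n → ℝ) (B : Set (Fin m)) :
    Prop :=
  ∃ (x : Fin n → ℝ) (y : Fin m → ℝ), (∀ i, 0 ≤ slack A b x i) ∧ (∀ i, 0 ≤ y i) ∧
    (∀ j, ∑ i, A i j * y i = c j) ∧ (∀ i ∈ B, slack A b x i = 0) ∧ ∀ i ∉ B, y i = 0

end Pool.Agent.Work.MP_6af739_lc.LB
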