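import Pool.Agent.Work.MP_6af739_lc.LB.Stat

/-!
The dual mass sits on three neighbouring walls and moves by at most two walls per step.
-/

namespace Pool.Agent.Work.MP_6af739_lc.LB

open Finset

variable {m n k : ℕ}

structure Good (m n k : ℕ) (η β : ℝ) (j1 : Fin n) (x : Fin n → ℝ) (y s : Fin m → ℝ) : Prop where
  near : Near m n k η x y s
  prod : ∀ i : Fin m, (i : ℕ) ≤ k → s i * y i ≤ β * max 1 (x j1)
  err : 100 * (k : ℝ) ^ 2 * (η * (1 + ∑ j, |x j|)) ≤ max 1 (x j1)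

theorem far_s {η β : ℝ} {x : Fin n → ℝ} {y s : Fin m → ℝ} (j0 j1 : Fin n) (h0 : (j0 : ℕ) = 0)
    (h1 : (j1 : ℕ) = 1) (h : Good m n k η β j1 x y s) (hk : 1 ≤ k) (hkm : k < m)
    (i : Fin m) (hi : (i : ℕ) ≤ k) (a : ℕ)
    (ha : (i : ℕ) + a + 2 = pos k (x j1) ∨ (i : ℕ) = pos k (x j1) + a + 2) :
    ((a : ℝ) + 2) * (a + 1) * max 1 (x j1) / 12 ≤ (k : ℝ) ^ 2 * s i := by
  have hp := pos_le (k := k) (x j1)
  set p := pos k (x j1) with hpd
  set t := x j1 with ht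
  set M := max 1 t with hM
  have M1 : 1 ≤ M := le_max_left _ _
  have hk0 : (0 : ℝ) < k := by exact_mod_cast hk
  have ha0 : (0 : ℝ) ≤ a := by positivity
  have e1 := slack_wall (m := m) (k := k) x j0 j1 h0 h1 i hi
  have e2 := slack_wall (m := m) (k := k) x j0 j1 h0 h1 ⟨p, by omega⟩ hp
  have key : (k : ℝ) ^ 2 * (slack (A0 m n k) (b0 m k) x i -
      slack (A0 m n k) (b0 m k) x ⟨p, by omega⟩) =
      (((i : ℕ) - (t - 1) * k) ^ 2 - (p - (t - 1) * k) ^ 2) / 2 := by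
    rw [e1, e2]; simp only [tt]; field_simp; ring
  have low : ((a : ℝ) + 2) * (a + 1) * M / 3 ≤
      ((i : ℕ) - (t - 1) * k) ^ 2 - (p - (t - 1) * k) ^ 2 := by
    rcases ha with ha | ha
    · have hr : ((i : ℕ) : ℝ) = p - a - 2 := by
        have : (((i : ℕ) + a + 2 : ℕ) : ℝ) = p := by rw [ha]
        push_cast at this; linarith
      have l1 := pos_lo (k := k) (t := t) (by omega)
      rw [← hpd] at l1
      have hpk : (p : ℝ) ≤ k := by exact_mod_cast hp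
      have hi0 : (0 : ℝ) ≤ (i : ℕ) := by positivity
      have l2 : (a + 1) * M / 3 ≤ 2 * ((t - 1) * k - p) + a + 2 := by
        by_cases h3 : t ≤ 3
        · have : M ≤ 3 := max_le (by norm_num) h3
          nlinarith
        · have hMt : M = t := max_eq_right (by linarith)
          rw [hMt]
          have : (t - 2) * (a + 1) ≤ (t - 2) * k :=
            mul_le_mul_of_nonneg_left (by linarith) (by linarith)
          nlinarith
      rw [hr]
      nlinarith [mul_le_mul_of_nonneg_left l2 (show (0 : ℝ) ≤ a + 2 by linarith)]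
    · have hr : ((i : ℕ) : ℝ) = p + a + 2 := by rw [ha]; push_cast; ring
      have l1 := pos_hi (k := k) (t := t) (by omega)
      rw [← hpd] at l1
      have hpk : (p : ℝ) + 1 ≤ k := by exact_mod_cast (show p + 1 ≤ k by omega)
      have h3 : t ≤ 3 := by
        by_contra hc
        nlinarith
      have : M ≤ 3 := max_le (by norm_num) h3
      have l2 : (a + 1) * M / 3 ≤ 2 * (p - (t - 1) * k) + a + 2 := by nlinarith
      rw [hr]
      nlinarith [mul_le_mul_of_nonneg_left l2 (show (0 : ℝ) ≤ a + 2 by linarith)]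
  have s1 := (abs_le.1 (h.near.hs i)).1
  have s2 := (abs_le.1 (h.near.hs ⟨p, by omega⟩)).2
  have s3 := h.near.spos ⟨p, by omega⟩
  have er := h.err
  rw [← ht, ← hM] at er
  have hR : (2 : ℝ) ≤ (a + 2) * (a + 1) := by nlinarith
  have hk2 : (0 : ℝ) < (k : ℝ) ^ 2 := by positivity
  have s4 : slack (A0 m n k) (b0 m k) x i - slack (A0 m n k) (b0 m k) x ⟨p, by omega⟩ -
      2 * (η * (1 + ∑ j, |x j|)) ≤ s i := by linarith
  have := mul_le_mul_of_nonneg_left s4 hk2.le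
  nlinarith

theorem far {η β : ℝ} {x : Fin n → ℝ} {y s : Fin m → ℝ} (j0 j1 : Fin n) (h0 : (j0 : ℕ) = 0)
    (h1 : (j1 : ℕ) = 1) (h : Good m n k η β j1 x y s) (hk : 1 ≤ k) (hkm : k < m)
    (i : Fin m) (hi : (i : ℕ) ≤ k) (a : ℕ)
    (ha : (i : ℕ) + a + 2 = pos k (x j1) ∨ (i : ℕ) = pos k (x j1) + a + 2) :
    y i * (((a : ℝ) + 2) * (a + 1)) ≤ 12 * β * k ^ 2 := by
  have s5 := far_s j0 j1 h0 h1 h hk hkm i hi a ha
  have s6 := h.prod i hi
  have M1 : 1 ≤ max 1 (x j1) := le_max_left _ _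
  set M := max 1 (x j1)
  have s7 := mul_le_mul_of_nonneg_left s5 (h.near.ypos i)
  have s8 := mul_le_mul_of_nonneg_left s6 (sq_nonneg (k : ℝ))
  refine le_of_mul_le_mul_right ?_ (show 0 < M by linarith)
  nlinarith

theorem move {η β γ : ℝ} {x x' : Fin n → ℝ} {y s y' s' : Fin m → ℝ} (j0 j1 : Fin n)
    (h0 : (j0 : ℕ) = 0) (h1 : (j1 : ℕ) = 1) (h : Good m n k η β j1 x y s)
    (h' : Good m n k η β j1 x' y' s') (hk : 1 ≤ k) (hkm : k < m) (hη0 : 0 ≤ η) (hη : η ≤ 1 / 100)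
    (hγ : 0 < γ) (hγ1 : γ ≤ 1) (hβ0 : 0 ≤ β) (hβ : β * k ^ 2 ≤ γ / 100)
    (hg : ∀ i, γ * y' i ≤ 3 * y i) : pos k (x j1) ≤ pos k (x' j1) + 2 := by
  by_contra hc
  have hp := pos_le (k := k) (x j1)
  have hC : 0 ≤ 12 * β * (k : ℝ) ^ 2 := by positivity
  have t1 := tail_sum ((Wl m k).filter fun i => (i : ℕ) + 2 ≤ pos k (x j1))
    (fun i => pos k (x j1) - i - 2)
    (fun a ha b hb hab => by
      have ha' := (Finset.mem_filter.1 (Finset.mem_coe.1 ha)).2
      have hb' := (Finset.mem_filter.1 (Finset.mem_coe.1 hb)).2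
      apply Fin.ext; simp only at hab; omega) y hC
    (fun i hi => by
      have hi' := Finset.mem_filter.1 hi
      exact far j0 j1 h0 h1 h hk hkm i (mem_Wl.1 hi'.1) _ (Or.inl (by have := hi'.2; omega)))
  have t2 := tail_sum ((Wl m k).filter fun i => ¬ (i : ℕ) + 2 ≤ pos k (x j1))
    (fun i => i - pos k (x' j1) - 2)
    (fun a ha b hb hab => by
      have ha' := (Finset.mem_filter.1 (Finset.mem_coe.1 ha)).2
      have hb' := (Finset.mem_filter.1 (Finset.mem_coe.1 hb)).2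
      apply Fin.ext; simp only at hab; omega) y' hC
    (fun i hi => by
      have hi' := Finset.mem_filter.1 hi
      exact far j0 j1 h0 h1 h' hk hkm i (mem_Wl.1 hi'.1) _ (Or.inr (by have := hi'.2; omega)))
  have t3 : γ * ∑ i ∈ (Wl m k).filter (fun i : Fin m => (i : ℕ) + 2 ≤ pos k (x j1)), y' i ≤
      3 * ∑ i ∈ (Wl m k).filter (fun i : Fin m => (i : ℕ) + 2 ≤ pos k (x j1)), y i := by
    rw [Finset.mul_sum, Finset.mul_sum]; exact Finset.sum_le_sum fun i _ => hg i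
  have t4 := Finset.sum_filter_add_sum_filter_not (Wl m k)
    (fun i => (i : ℕ) + 2 ≤ pos k (x j1)) y'
  obtain ⟨-, d1, -, -, -⟩ := dualB h'.near hη0 hη j0 j1 h0 h1
  have d2 := (abs_le.1 d1).1
  have t5 : ∑ i ∈ (Wl m k).filter (fun i : Fin m => (i : ℕ) + 2 ≤ pos k (x j1)), y' i ≤
      36 / 100 :=
    le_of_mul_le_mul_left (by linarith) hγ
  linarith

theorem good_of {η β : ℝ} {x : Fin n → ℝ} {y s : Fin m → ℝ} (h : Near m n k η x y s)
    (hm : k + 2 * n < m) (hk : 1 ≤ k) (hη0 : 0 ≤ η) (hη : η ≤ 1 / 100)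
    (hε : 300 * (k : ℝ) ^ 2 * (η * (n + 3)) ≤ 1) (j0 j1 : Fin n) (h0 : (j0 : ℕ) = 0)
    (h1 : (j1 : ℕ) = 1) (hβ0 : 0 ≤ β) (hβ : (k + 1) * β ≤ 1 / 50)
    (hB : ∀ i : Fin m, (i : ℕ) ≤ k → s i * y i ≤ β * max 1 (x j1)) :
    Good m n k η β j1 x y s := by
  have hk1 : (1 : ℝ) ≤ (k : ℝ) ^ 2 := one_le_pow₀ (by exact_mod_cast hk)
  have hε0 : 0 ≤ η * (n + 3) := by positivity
  have M1 : 1 ≤ max 1 (x j1) := le_max_left _ _
  have e := errB h hm hη0 hη (by nlinarith) j0 j1 h0 h1 (by positivity) hB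
  refine ⟨h, hB, ?_⟩
  set M := max 1 (x j1)
  have hn : (0 : ℝ) ≤ n := by positivity
  have a1 : 4 * η * ((k + 1) * (β * M)) ≤ η * (n + 3) * M := by
    have : 4 * η * ((k + 1) * β) ≤ η * (n + 3) := by nlinarith
    nlinarith
  have a2 : η * (1 + ∑ j, |x j|) ≤ 3 * (η * (n + 3)) * M := by linarith
  have a3 := mul_le_mul_of_nonneg_left a2 (show 0 ≤ 100 * (k : ℝ) ^ 2 by positivity)
  nlinarith

theorem ends {η β : ℝ} {x : Fin n → ℝ} {y s : Fin m → ℝ} (j0 j1 : Fin n) (h0 : (j0 : ℕ) = 0)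
    (h1 : (j1 : ℕ) = 1) (h : Good m n k η β j1 x y s) (hk : 1 ≤ k) (hη0 : 0 ≤ η)
    (hη : η ≤ 1 / 100) (hβ0 : 0 ≤ β) (hβ : (k + 1) * β ≤ 1 / 50) :
    (5 ≤ ∑ i, s i * y i → 2 ≤ x j1) ∧ (∑ i, s i * y i ≤ 1 / 2 → x j1 ≤ 1) := by
  obtain ⟨-, d1, d2, d3, -⟩ := dualB h.near hη0 hη j0 j1 h0 h1
  have b := abs_le.1 (bulkB h.near hη0 hη j0 j1 h0 h1)
  have d4 := abs_le.1 d1
  have hk1 : (1 : ℝ) ≤ (k : ℝ) ^ 2 := one_le_pow₀ (by exact_mod_cast hk)
  have M1 : 1 ≤ max 1 (x j1) := le_max_left _ _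
  have he0 : 0 ≤ η * (1 + ∑ j, |x j|) := by positivity
  have er : 100 * (η * (1 + ∑ j, |x j|)) ≤ max 1 (x j1) := by nlinarith [h.err]
  have w0 : 0 ≤ ∑ i ∈ Wl m k, s i * y i :=
    Finset.sum_nonneg fun i _ => mul_nonneg (h.near.spos i) (h.near.ypos i)
  have w1 : ∑ i ∈ Wl m k, s i * y i ≤ 1 / 50 * max 1 (x j1) := by
    calc _ ≤ ∑ i ∈ Wl m k, β * max 1 (x j1) :=
          Finset.sum_le_sum fun i hi => h.prod i (mem_Wl.1 hi)
      _ ≤ (k + 1) * (β * max 1 (x j1)) := by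
          rw [Finset.sum_const, nsmul_eq_mul]
          exact mul_le_mul_of_nonneg_right (by exact_mod_cast card_Wl) (by positivity)
      _ ≤ _ := by nlinarith
  rw [sum_split (k := k)]
  constructor
  · intro hg
    by_contra hc
    have : max 1 (x j1) ≤ 2 := max_le (by norm_num) (by linarith)
    nlinarith [b.1, b.2, d4.1, d4.2]
  · intro hg
    by_contra hc
    have : max 1 (x j1) = x j1 := max_eq_right (by linarith)
    rw [this] at er
    nlinarith [b.1, b.2, d4.1, d4.2]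

theorem two_sided' {η β γ : ℝ} {x : Fin n → ℝ} {y s : Fin m → ℝ} (h : Near m n k η x y s)
    (hm : k + 2 * n < m) (hm2 : 2 * (k + 1) ≤ m) (hη0 : 0 ≤ η) (hη : η ≤ 1 / 100)
    (hε : 300 * (η * (n + 3)) ≤ 1) (j0 j1 : Fin n) (h0 : (j0 : ℕ) = 0) (h1 : (j1 : ℕ) = 1)
    (hγ : 0 < γ) (hβ : β * (γ ^ 2 * m) = 10) (h52 : 52 * η * (k + 1) ≤ γ ^ 2 * m / 4)
    (hw : ∀ i, γ * ((∑ i, s i * y i) / m) ≤ s i * y i)
    (hb : ∀ i, γ * (s i * y i) ≤ (∑ i, s i * y i) / m) :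
    (∑ i, s i * y i) / m / γ ≤ β * max 1 (x j1) := by
  have i : Fin m := ⟨0, by omega⟩
  set μ := (∑ i, s i * y i) / m with hμ
  have hμ0 : 0 ≤ μ := le_trans (mul_nonneg hγ.le (mul_nonneg (h.spos i) (h.ypos i))) (hb i)
  have hB : ∀ i, s i * y i ≤ μ / γ := fun i => by rw [le_div_iff₀ hγ]; linarith [hb i]
  have hB0 : 0 ≤ μ / γ := by positivity
  have e := errB h hm hη0 hη (by linarith) j0 j1 h0 h1 hB0 fun i _ => hB i
  obtain ⟨-, d1, d2, d3, -⟩ := dualB h hη0 hη j0 j1 h0 h1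
  have b := (abs_le.1 (bulkB h hη0 hη j0 j1 h0 h1)).2
  have d4 := abs_le.1 d1
  have M1 : 1 ≤ max 1 (x j1) := le_max_left _ _
  have M2 : x j1 ≤ max 1 (x j1) := le_max_right _ _
  set M := max 1 (x j1)
  have c1 : (m : ℝ) / 2 ≤ (Bk m k).card := by
    have a := card_Bk (m := m) (k := k)
    have : m ≤ 2 * (Bk m k).card := by omega
    have : (m : ℝ) ≤ 2 * (Bk m k).card := by exact_mod_cast this
    linarith
  have c2 : (m : ℝ) / 2 * (γ * μ) ≤ ∑ i ∈ Bk m k, s i * y i :=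
    calc _ ≤ (Bk m k).card * (γ * μ) := mul_le_mul_of_nonneg_right c1 (by positivity)
      _ = ∑ i ∈ Bk m k, γ * μ := by rw [Finset.sum_const, nsmul_eq_mul]
      _ ≤ _ := Finset.sum_le_sum fun i _ => hw i
  have c3 : x j1 * ∑ i ∈ Wl m k, tt k i * y i ≤ 21 / 10 * M := by nlinarith [d4.1, d4.2]
  have c4 : (m : ℝ) / 2 * (γ * μ) = γ ^ 2 * m / 2 * (μ / γ) := by field_simp
  have c5 := mul_le_mul_of_nonneg_right h52 hB0
  have c6 : 26 * (η * (n + 3)) * M ≤ 1 / 10 * M := by nlinarith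
  have c7 : γ ^ 2 * m / 4 * (μ / γ) ≤ 22 / 10 * M := by nlinarith
  have hm0 : (0 : ℝ) < m := by exact_mod_cast (show 0 < m by omega)
  refine le_of_mul_le_mul_left ?_ (show 0 < γ ^ 2 * m by positivity)
  nlinarith

theorem two_sided {η β γ : ℝ} {x : Fin n → ℝ} {y s : Fin m → ℝ} (h : Near m n k η x y s)
    (hm : k + 2 * n < m) (hm2 : 2 * (k + 1) ≤ m) (hη0 : 0 ≤ η) (hη : η ≤ 1 / 100)
    (hε : 300 * (η * (n + 3)) ≤ 1) (j0 j1 : Fin n) (h0 : (j0 : ℕ) = 0) (h1 : (j1 : ℕ) = 1)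
    (hγ : 0 < γ) (hβ : β * (γ ^ 2 * m) = 10) (h52 : 52 * η * (k + 1) ≤ γ ^ 2 * m / 4)
    (hw : ∀ i, γ * ((∑ i, s i * y i) / m) ≤ s i * y i)
    (hb : ∀ i, γ * (s i * y i) ≤ (∑ i, s i * y i) / m) (i : Fin m) :
    s i * y i ≤ β * max 1 (x j1) :=
  le_trans (by rw [le_div_iff₀ hγ]; linarith [hb i])
    (two_sided' h hm hm2 hη0 hη hε j0 j1 h0 h1 hγ hβ h52 hw hb)

theorem grow {s y y' μ γ : ℝ} (hs : 0 < s) (hy : 0 < y) (hγ1 : γ ≤ 1)
    (hγ : 0 < γ) (hw : γ * μ ≤ s * y) (h : s * y' ≤ 2 * (s * y) + max (s * y) μ) :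
    γ * y' ≤ 3 * y := by
  have hP := mul_pos hs hy
  have a : γ * max (s * y) μ ≤ s * y := by
    rw [mul_max_of_nonneg _ _ hγ.le]; exact max_le (by nlinarith) hw
  refine le_of_mul_le_mul_left ?_ hs
  nlinarith

theorem keep {s y s' y' μ γ B : ℝ} (hs : 0 < s) (hy : 0 < y) (hs' : 0 < s') (hy' : 0 < y')
    (hw : γ * μ ≤ s * y) (h : y * s' + s * y' ≤ s * y + max (s * y) μ)
    (h1 : s * y ≤ B) (h2 : μ ≤ γ * B) : s' * y' ≤ B := by
  have hP := mul_pos hs hy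
  have a := mul_pos hy hs'
  have b := mul_pos hs hy'
  have am : 4 * ((s * y) * (s' * y')) ≤ (y * s' + s * y') ^ 2 := by
    nlinarith [sq_nonneg (y * s' - s * y')]
  refine le_of_mul_le_mul_left ?_ hP
  rcases le_total μ (s * y) with hc | hc
  · rw [max_eq_left hc] at h
    have : (y * s' + s * y') ^ 2 ≤ (2 * (s * y)) ^ 2 :=
      pow_le_pow_left₀ (by linarith) (by linarith) 2
    nlinarith
  · rw [max_eq_right hc] at h
    have : (y * s' + s * y') ^ 2 ≤ (2 * μ) ^ 2 := pow_le_pow_left₀ (by linarith) (by linarith) 2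
    have c : μ * μ ≤ s * y * B := by
      have hμ : 0 ≤ μ := by linarith
      have : μ * μ ≤ μ * (γ * B) := mul_le_mul_of_nonneg_left h2 hμ
      nlinarith
    nlinarith

theorem scale_cmp {η β β' : ℝ} {x x' : Fin n → ℝ} {y s z s' : Fin m → ℝ} (j0 j1 : Fin n)
    (h0 : (j0 : ℕ) = 0) (h1 : (j1 : ℕ) = 1) (h : Good m n k η β' j1 x y s)
    (h' : Near m n k η x' z s') (hm : k + 2 * n < m) (hk : 1 ≤ k) (hη0 : 0 ≤ η)
    (hη : η ≤ 1 / 100) (hε : 300 * (η * (n + 3)) ≤ 1) (hβ0 : 0 ≤ β) (hβ : (k + 1) * β ≤ 1 / 50)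
    (hB : ∀ i, s' i * z i ≤ β * max 1 (x j1))
    (hg : (∑ i, s i * y i) / 2 ≤ ∑ i, s' i * z i) : max 1 (x j1) ≤ 10 * max 1 (x' j1) := by
  have M1 : 1 ≤ max 1 (x' j1) := le_max_left _ _
  have M2 : x' j1 ≤ max 1 (x' j1) := le_max_right _ _
  rcases le_total (x j1) 1 with ht | ht
  · rw [max_eq_left ht]; linarith
  obtain ⟨-, d1, d2, -, -⟩ := dualB h.near hη0 hη j0 j1 h0 h1
  obtain ⟨-, f1, f2, f3, -⟩ := dualB h' hη0 hη j0 j1 h0 h1
  have b := (abs_le.1 (bulkB h.near hη0 hη j0 j1 h0 h1)).1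
  have b' := (abs_le.1 (bulkB h' hη0 hη j0 j1 h0 h1)).2
  have d4 := abs_le.1 d1
  have f4 := abs_le.1 f1
  have hk1 : (1 : ℝ) ≤ (k : ℝ) ^ 2 := one_le_pow₀ (by exact_mod_cast hk)
  have he0 : 0 ≤ η * (1 + ∑ j, |x j|) := by positivity
  have er0 := h.err
  rw [max_eq_right ht] at er0 hB ⊢
  have er : 100 * (η * (1 + ∑ j, |x j|)) ≤ x j1 := by nlinarith
  have e := errB h' hm hη0 hη (by linarith) j0 j1 h0 h1 (B := β * x j1) (by positivity)
    fun i _ => hB i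
  have w0 : 0 ≤ ∑ i ∈ Wl m k, s i * y i :=
    Finset.sum_nonneg fun i _ => mul_nonneg (h.near.spos i) (h.near.ypos i)
  have kb : ((k : ℝ) + 1) * (β * x j1) ≤ 1 / 50 * x j1 := by nlinarith
  have w1 : ∑ i ∈ Wl m k, s' i * z i ≤ (k + 1) * (β * x j1) := by
    calc _ ≤ ∑ i ∈ Wl m k, β * x j1 := Finset.sum_le_sum fun i _ => hB i
      _ ≤ _ := by
          rw [Finset.sum_const, nsmul_eq_mul]
          exact mul_le_mul_of_nonneg_right (by exact_mod_cast card_Wl) (by positivity)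
  rw [sum_split (k := k), sum_split (k := k) fun i => s' i * z i] at hg
  set M := max 1 (x' j1)
  have c1 : 95 / 100 * x j1 ≤ x j1 * ∑ i ∈ Wl m k, tt k i * y i := by nlinarith [d4.1]
  have c3 : x' j1 * ∑ i ∈ Wl m k, tt k i * z i ≤ 21 / 10 * M := by nlinarith [f4.1, f4.2]
  have c6 : 26 * (η * (n + 3)) * M ≤ 1 / 10 * M := by nlinarith
  have kb0 : 0 ≤ ((k : ℝ) + 1) * (β * x j1) := by positivity
  have c7 : 4 * η * ((k + 1) * (β * x j1)) ≤ 4 / 100 * ((k + 1) * (β * x j1)) := by nlinarith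
  linarith

theorem heavy {η β : ℝ} {x : Fin n → ℝ} {y s : Fin m → ℝ} (j0 j1 : Fin n)
    (h0 : (j0 : ℕ) = 0) (h1 : (j1 : ℕ) = 1) (h : Good m n k η β j1 x y s) (hk : 1 ≤ k)
    (hkm : k < m) (hη0 : 0 ≤ η) (hη : η ≤ 1 / 100) (hβ0 : 0 ≤ β) (hβ : β * k ^ 2 ≤ 1 / 100)
    (hp : 2 ≤ pos k (x j1)) (i0 : Fin m) (hi0 : (i0 : ℕ) = 0) :
    ∃ i : Fin m, 1 ≤ (i : ℕ) ∧ (i : ℕ) ≤ k ∧ 3 * s i < s i0 ∧ 3 * y i0 < y i := by
  have hC : 0 ≤ 12 * β * (k : ℝ) ^ 2 := by positivity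
  have ex : ∃ i : Fin m, 1 ≤ (i : ℕ) ∧ (i : ℕ) ≤ k ∧ 1 / 5 < y i := by
    by_contra hc
    push Not at hc
    have t1 := tail_sum ((Wl m k).filter fun i => (i : ℕ) + 2 ≤ pos k (x j1))
      (fun i => pos k (x j1) - i - 2)
      (fun a ha b hb hab => by
        have ha' := (Finset.mem_filter.1 (Finset.mem_coe.1 ha)).2
        have hb' := (Finset.mem_filter.1 (Finset.mem_coe.1 hb)).2
        apply Fin.ext; simp only at hab; omega) y hC
      (fun i hi => by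
        have hi' := Finset.mem_filter.1 hi
        exact far j0 j1 h0 h1 h hk hkm i (mem_Wl.1 hi'.1) _ (Or.inl (by have := hi'.2; omega)))
    set R := (Wl m k).filter fun i : Fin m => ¬ (i : ℕ) + 2 ≤ pos k (x j1) with hR
    have t2 := tail_sum (R.filter fun i => pos k (x j1) + 2 ≤ (i : ℕ))
      (fun i => i - pos k (x j1) - 2)
      (fun a ha b hb hab => by
        have ha' := (Finset.mem_filter.1 (Finset.mem_coe.1 ha)).2
        have hb' := (Finset.mem_filter.1 (Finset.mem_coe.1 hb)).2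
        apply Fin.ext; simp only at hab; omega) y hC
      (fun i hi => by
        have hi' := Finset.mem_filter.1 hi
        exact far j0 j1 h0 h1 h hk hkm i (mem_Wl.1 (Finset.mem_filter.1 hi'.1).1) _
          (Or.inr (by have := hi'.2; omega)))
    set S := R.filter fun i : Fin m => ¬ pos k (x j1) + 2 ≤ (i : ℕ) with hS
    have mS : ∀ i ∈ S, (i : ℕ) ≤ k ∧ pos k (x j1) ≤ i + 1 ∧ (i : ℕ) ≤ pos k (x j1) + 1 :=
      fun i hi => by
        have a := Finset.mem_filter.1 hi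
        have b := Finset.mem_filter.1 a.1
        have c := mem_Wl.1 b.1
        have := a.2
        have := b.2
        omega
    have cS : S.card ≤ (Finset.range 3).card :=
      Finset.card_le_card_of_injOn (fun i => (i : ℕ) + 1 - pos k (x j1))
        (fun i hi => by
          have := mS i (Finset.mem_coe.1 hi)
          simp only [Finset.coe_range, Set.mem_Iio]; omega)
        (fun a ha b hb hab => by
          have := mS a (Finset.mem_coe.1 ha)
          have := mS b (Finset.mem_coe.1 hb)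
          apply Fin.ext; simp only at hab; omega)
    have cS' : (S.card : ℝ) ≤ 3 := by exact_mod_cast (by simpa using cS)
    have t3 : ∑ i ∈ S, y i ≤ 3 / 5 :=
      calc _ ≤ ∑ i ∈ S, (1 / 5 : ℝ) := Finset.sum_le_sum fun i hi =>
            hc i (by have := mS i hi; omega) (mS i hi).1
        _ ≤ _ := by rw [Finset.sum_const, nsmul_eq_mul]; linarith
    have t4 := Finset.sum_filter_add_sum_filter_not (Wl m k)
      (fun i => (i : ℕ) + 2 ≤ pos k (x j1)) y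
    have t5 := Finset.sum_filter_add_sum_filter_not R (fun i => pos k (x j1) + 2 ≤ (i : ℕ)) y
    obtain ⟨-, d1, -, -, -⟩ := dualB h.near hη0 hη j0 j1 h0 h1
    have d2 := (abs_le.1 d1).1
    rw [← hR] at t4
    rw [← hS] at t5
    linarith
  obtain ⟨i, i1, i2, i3⟩ := ex
  have f1 := far_s j0 j1 h0 h1 h hk hkm i0 (by omega) (pos k (x j1) - 2) (Or.inl (by omega))
  have f2 := far j0 j1 h0 h1 h hk hkm i0 (by omega) (pos k (x j1) - 2) (Or.inl (by omega))
  have ha0 : (0 : ℝ) ≤ (pos k (x j1) - 2 : ℕ) := by positivity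
  set a : ℝ := ((pos k (x j1) - 2 : ℕ) : ℝ)
  have hR : (2 : ℝ) ≤ (a + 2) * (a + 1) := by nlinarith
  have M1 : 1 ≤ max 1 (x j1) := le_max_left _ _
  have p1 := h.prod i i2
  set M := max 1 (x j1)
  have y0 := h.near.ypos i0
  have s0 := h.near.spos i
  refine ⟨i, i1, i2, ?_, by nlinarith⟩
  have hk2 : (0 : ℝ) < (k : ℝ) ^ 2 := by positivity
  have q1 : s i ≤ 5 * (β * M) := by nlinarith
  have q2 := mul_le_mul_of_nonneg_left q1 hk2.le
  have q3 := mul_le_mul_of_nonneg_right hβ (show 0 ≤ M by linarith)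
  have q4 := mul_le_mul_of_nonneg_right hR (show 0 ≤ M by linarith)
  refine lt_of_mul_lt_mul_left ?_ hk2.le
  nlinarith

theorem optB {η : ℝ} {x : Fin n → ℝ} {y s : Fin m → ℝ} (j0 j1 : Fin n)
    (h0 : (j0 : ℕ) = 0) (h1 : (j1 : ℕ) = 1) (h : Near m n k η x y s) (hm : k + 2 * n < m)
    (hk : 1 ≤ k) (hη0 : 0 ≤ η) (hη : η ≤ 1 / 100) (hε : 300 * (k : ℝ) ^ 2 * (η * (n + 3)) ≤ 1)
    {B : Set (Fin m)} (hs : ∀ i ∈ B, s i = 0) (hy : ∀ i ∉ B, y i = 0) (i0 : Fin m)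
    (hi0 : (i0 : ℕ) = 0) : i0 ∈ B ∧ ∀ i : Fin m, 1 ≤ (i : ℕ) → (i : ℕ) ≤ k → i ∉ B := by
  have pr : ∀ i, s i * y i = 0 := fun i => by
    by_cases hi : i ∈ B
    · rw [hs i hi, zero_mul]
    · rw [hy i hi, mul_zero]
  have g := good_of (β := 0) h hm hk hη0 hη hε j0 j1 h0 h1 le_rfl (by norm_num)
    fun i _ => by rw [pr, zero_mul]
  have t1 := (ends j0 j1 h0 h1 g hk hη0 hη le_rfl (by norm_num)).2 (by simp [pr])
  have er := g.err
  rw [max_eq_left t1] at er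
  have hk0 : (0 : ℝ) < k := by exact_mod_cast hk
  have no : ∀ i : Fin m, 1 ≤ (i : ℕ) → (i : ℕ) ≤ k → i ∉ B := fun i i1 i2 hi => by
    have a1 := (abs_le.1 (h.hs i)).1
    have a2 := (abs_le.1 (h.hs i0)).2
    have a3 := h.spos i0
    have key : (k : ℝ) ^ 2 * (slack (A0 m n k) (b0 m k) x i - slack (A0 m n k) (b0 m k) x i0) =
        (i : ℕ) * (i : ℕ) / 2 + (i : ℕ) * (k * (1 - x j1)) := by
      rw [slack_wall x j0 j1 h0 h1 i i2, slack_wall x j0 j1 h0 h1 i0 (by omega), hi0]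
      simp only [tt]; field_simp; ring
    have i1' : (1 : ℝ) ≤ (i : ℕ) := by exact_mod_cast i1
    have a4 : 0 ≤ ((i : ℕ) : ℝ) * (k * (1 - x j1)) :=
      mul_nonneg (by linarith) (mul_nonneg hk0.le (by linarith))
    have a5 : slack (A0 m n k) (b0 m k) x i - slack (A0 m n k) (b0 m k) x i0 ≤
        2 * (η * (1 + ∑ j, |x j|)) := by linarith [hs i hi]
    have a6 := mul_le_mul_of_nonneg_left a5 (sq_nonneg (k : ℝ))
    nlinarith
  refine ⟨by_contra fun hc => ?_, no⟩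
  obtain ⟨-, d1, -, -, -⟩ := dualB h hη0 hη j0 j1 h0 h1
  have d2 := (abs_le.1 d1).1
  have z : ∑ i ∈ Wl m k, y i = 0 := Finset.sum_eq_zero fun i hi => by
    by_cases e : (i : ℕ) = 0
    · exact hy i (by rwa [show i = i0 from Fin.ext (by omega)])
    · exact hy i (no i (by omega) (mem_Wl.1 hi))
  linarith

theorem step_facts {A : Matrix (Fin m) (Fin n) ℝ} {b : Fin m → ℝ} {c x x' : Fin n → ℝ}
    {y y' : Fin m → ℝ} {α β : ℝ} (h : Feas A b c x y) (h' : Feas A b c x' y')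
    (hα : α ∈ Set.Icc (0 : ℝ) 1) (hβ : β ∈ Set.Icc (0 : ℝ) 1) (hs : Step A b x y α β x' y') :
    (β ≤ 2 * α → ∀ i, slack A b x i * y' i ≤
      2 * (slack A b x i * y i) + max (slack A b x i * y i) (gap A b x y / m)) ∧
    ∃ z : Fin m → ℝ, (α = β → z = y') ∧ (α ≤ β → Feas A b c x' z) ∧
      (∀ i, y i * slack A b x' i + slack A b x i * z i ≤
        slack A b x i * y i + max (slack A b x i * y i) (gap A b x y / m)) ∧
      (1 - α) * gap A b x y ≤ gap A b x' z ∧ gap A b x' z ≤ gap A b x y := by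
  obtain ⟨dx, dy, w, w1, w2, w3, w4, rfl, rfl⟩ := hs
  have sl : ∀ i, slack A b (x + α • dx) i = slack A b x i + α * (-∑ j, A i j * dx j) := by
    intro i; unfold slack
    simp only [Pi.add_apply, Pi.smul_apply, smul_eq_mul, mul_add, Finset.sum_add_distrib,
      mul_neg, Finset.mul_sum, mul_left_comm (A i _) α]
    ring
  have orth : ∑ i, (-∑ j, A i j * dx j) * dy i = 0 := by
    have := gap_eq A 0 dx dy
    simpa [slack, w3] using this
  have gz : gap A b (x + α • dx) (y + α • dy) = (1 - α) * gap A b x y + α * ∑ i, w i := by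
    unfold gap
    have : ∀ i, slack A b (x + α • dx) i * (y + α • dy) i =
        (1 - α) * (slack A b x i * y i) + α * w i + α ^ 2 * ((-∑ j, A i j * dx j) * dy i) := by
      intro i
      rw [sl]; simp only [Pi.add_apply, Pi.smul_apply, smul_eq_mul]
      linear_combination α * w4 i
    simp only [this, Finset.sum_add_distrib, ← Finset.mul_sum, orth]; ring
  have w0 : 0 ≤ ∑ i, w i := Finset.sum_nonneg fun i _ => (w1 i).1
  refine ⟨fun hb i => ?_, y + α • dy, fun e => by rw [e], fun hab => ⟨h'.1, fun i => ?_,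
    fun j => ?_⟩, fun i => ?_, ?_, ?_⟩
  · have a := h'.1 i
    rw [sl] at a
    have a1 := h.1 i
    have a2 := h.2.1 i
    have a3 : -(β * (-∑ j, A i j * dx j)) ≤ 2 * slack A b x i := by
      rcases le_total 0 (-∑ j, A i j * dx j) with hd | hd
      · nlinarith [hβ.1]
      · nlinarith
    have a4 := mul_le_mul_of_nonneg_left a3 a2.le
    have a5 := le_max_left (slack A b x i * y i) (gap A b x y / m)
    have a6 := mul_le_mul_of_nonneg_left (w1 i).2 hβ.1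
    have a7 := mul_le_mul_of_nonneg_left a5 (sub_nonneg.2 hβ.2)
    have a8 : slack A b x i * (y + β • dy) i = (1 - β) * (slack A b x i * y i) + β * w i +
        y i * -(β * (-∑ j, A i j * dx j)) := by
      simp only [Pi.add_apply, Pi.smul_apply, smul_eq_mul]
      linear_combination β * w4 i
    rw [a8]; linarith
  · have a := h'.2.1 i
    have a2 := h.2.1 i
    simp only [Pi.add_apply, Pi.smul_apply, smul_eq_mul] at a ⊢
    rcases le_total 0 (dy i) with hd | hd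
    · nlinarith [hα.1]
    · nlinarith
  · simp only [Pi.add_apply, Pi.smul_apply, smul_eq_mul, mul_add, Finset.sum_add_distrib,
      mul_left_comm (A _ j) α, ← Finset.mul_sum, w3, h.2.2, mul_zero, add_zero]
  · have a5 := le_max_left (slack A b x i * y i) (gap A b x y / m)
    have a6 := mul_le_mul_of_nonneg_left (w1 i).2 hα.1
    have a7 := mul_le_mul_of_nonneg_left a5 (sub_nonneg.2 hα.2)
    have a8 : y i * slack A b (x + α • dx) i + slack A b x i * (y + α • dy) i =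
        slack A b x i * y i + ((1 - α) * (slack A b x i * y i) + α * w i) := by
      rw [sl]; simp only [Pi.add_apply, Pi.smul_apply, smul_eq_mul]
      linear_combination α * w4 i
    rw [a8]; linarith
  · rw [gz]; nlinarith [hα.1]
  · rw [gz]; nlinarith [hα.1]

end Pool.Agent.Work.MP_6af739_lc.LB
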