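import Pool.Agent.Work.MP_6af739_lc.LB.Core
import Pool.Agent.Work.MP_6af739_lc.LB.Ctr

/-!
Scaling, central points of the perturbed program, the Gaussian estimate, and the assembly.
-/

namespace Pool.Agent.Work.MP_6af739_lc.LB

open Finset MeasureTheory ProbabilityTheory
open scoped ENNReal

variable {m n k : ℕ}

theorem slack_smul (a : ℝ) (A : Matrix (Fin m) (Fin n) ℝ) (b : Fin m → ℝ) (x : Fin n → ℝ)
    (i : Fin m) : slack (a • A) (a • b) x i = a * slack A b x i := by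
  simp only [slack, Pi.smul_apply, Matrix.smul_apply, smul_eq_mul, mul_sub, Finset.mul_sum,
    mul_assoc]

theorem gap_smul (a : ℝ) (A : Matrix (Fin m) (Fin n) ℝ) (b : Fin m → ℝ) (x : Fin n → ℝ)
    (y : Fin m → ℝ) : gap (a • A) (a • b) x y = a * gap A b x y := by
  simp only [gap, slack_smul, Finset.mul_sum, mul_assoc]

theorem feas_smul {a : ℝ} (ha : 0 < a) {A : Matrix (Fin m) (Fin n) ℝ} {b : Fin m → ℝ}
    {c x : Fin n → ℝ} {y : Fin m → ℝ} (h : Feas A b c x y) :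
    Feas (a • A) (a • b) (a • c) x y :=
  ⟨fun i => by rw [slack_smul]; exact mul_pos ha (h.1 i), h.2.1, fun j => by
    simp only [Pi.smul_apply, Matrix.smul_apply, smul_eq_mul, mul_assoc, ← Finset.mul_sum,
      h.2.2]⟩

theorem bal_smul {a γ : ℝ} (ha : 0 < a) {A : Matrix (Fin m) (Fin n) ℝ} {b : Fin m → ℝ}
    {x : Fin n → ℝ} {y : Fin m → ℝ} (h : Bal γ A b x y) : Bal γ (a • A) (a • b) x y := by
  intro i
  rw [slack_smul, gap_smul, mul_div_assoc]
  have := mul_le_mul_of_nonneg_left (h i) ha.le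
  linarith

theorem wide_smul {a γ : ℝ} (ha : 0 < a) {A : Matrix (Fin m) (Fin n) ℝ} {b : Fin m → ℝ}
    {x : Fin n → ℝ} {y : Fin m → ℝ} (h : Wide γ A b x y) : Wide γ (a • A) (a • b) x y := by
  intro i
  rw [slack_smul, gap_smul, mul_div_assoc]
  have := mul_le_mul_of_nonneg_left (h i) ha.le
  linarith

theorem run_smul {a γ : ℝ} (ha : 0 < a) {A : Matrix (Fin m) (Fin n) ℝ} {b : Fin m → ℝ}
    {c : Fin n → ℝ} {p T : ℕ} {α β : ℕ → ℝ} {x : ℕ → Fin n → ℝ} {y : ℕ → Fin m → ℝ}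
    (h : Run γ p A b c T α β x y) : Run γ p (a • A) (a • b) (a • c) T α β x y := by
  refine ⟨fun l hl => ⟨feas_smul ha (h.1 l hl).1, wide_smul ha (h.1 l hl).2⟩,
    fun l hl => (h.2 l hl).imp ?_ ?_⟩
  swap
  · rintro ⟨u, v, a1, a2, a3, a4, a5, a6, a7, a8⟩
    refine ⟨u, v, a1, a2, a3, a4, a5, ?_, fun t ht => ⟨feas_smul ha (a7 t ht).1,
      wide_smul ha (a7 t ht).2.1, bal_smul ha (a7 t ht).2.2⟩, a8⟩
    rw [gap_smul, gap_smul]; exact mul_le_mul_of_nonneg_left a6 ha.le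
  · rintro ⟨h1, h2, dx, dy, w, w1, w2, w3, w4, w5, w6⟩
    refine ⟨h1, h2, dx, dy, fun i => a * w i, fun i => ⟨mul_nonneg ha.le (w1 i).1, ?_⟩, ?_,
      fun j => ?_, fun i => ?_, w5, w6⟩
    · rw [slack_smul, gap_smul, mul_div_assoc, mul_assoc, ← mul_max_of_nonneg _ _ ha.le]
      exact mul_le_mul_of_nonneg_left (w1 i).2 ha.le
    · rw [gap_smul, ← Finset.mul_sum]; exact mul_le_mul_of_nonneg_left w2 ha.le
    · simp only [Matrix.smul_apply, smul_eq_mul, mul_assoc, ← Finset.mul_sum, w3, mul_zero]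
    · simp only [slack_smul, Matrix.smul_apply, smul_eq_mul, mul_assoc, ← Finset.mul_sum]
      linear_combination a * w4 i

theorem stop_smul {a : ℝ} (ha : 0 < a) {A : Matrix (Fin m) (Fin n) ℝ} {b : Fin m → ℝ}
    {c x : Fin n → ℝ} {y : Fin m → ℝ} (h : ∃ B, Mono A b x y B ∧ Opt A b c B) :
    ∃ B, Mono (a • A) (a • b) x y B ∧ Opt (a • A) (a • b) (a • c) B := by
  obtain ⟨B, hM, u, v, o1, o2, o3, o4, o5⟩ := h
  refine ⟨B, fun i j hj h1 h2 => hM i j hj ?_ h2, u, v, fun i => ?_, o2, fun j => ?_,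
    fun i hi => ?_, o5⟩
  · rw [slack_smul, slack_smul] at h1; exact lt_of_mul_lt_mul_left (by linarith) ha.le
  · rw [slack_smul]; exact mul_nonneg ha.le (o1 i)
  · simp only [Pi.smul_apply, Matrix.smul_apply, smul_eq_mul, mul_assoc, ← Finset.mul_sum, o3]
  · rw [slack_smul, o4 i hi, mul_zero]

theorem center_near (hn : 2 ≤ n) (hm : k + 2 * n < m) {η : ℝ} (hη0 : 0 ≤ η)
    (hη : 100 * n * η ≤ 1) {A : Matrix (Fin m) (Fin n) ℝ} {b : Fin m → ℝ} {c : Fin n → ℝ}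
    (hA : ∀ i j, |A i j - A0 m n k i j| ≤ η) (hb : ∀ i, |b i - b0 m k i| ≤ η)
    (hc : ∀ j, |c j - c0 n j| ≤ η) {μ : ℝ} (hμ : 0 < μ) :
    ∃ x y, Feas A b c x y ∧ ∀ i, slack A b x i * y i = μ := by
  obtain ⟨j0, e0⟩ : ∃ j : Fin n, (j : ℕ) = 0 := ⟨⟨0, by omega⟩, rfl⟩
  obtain ⟨j1, e1⟩ : ∃ j : Fin n, (j : ℕ) = 1 := ⟨⟨1, by omega⟩, rfl⟩
  have n2 : (2 : ℝ) ≤ n := by exact_mod_cast hn
  have hη1 : η ≤ 1 / 200 := by nlinarith
  have ne : ∀ j : Fin n, j ≠ j0 → j ≠ j1 → 2 ≤ (j : ℕ) := fun j a b => by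
    have a' : (j : ℕ) ≠ j0 := fun hh => a (Fin.ext hh)
    have b' : (j : ℕ) ≠ j1 := fun hh => b (Fin.ext hh)
    omega
  refine exists_center A b c (fun j => if (j : ℕ) = 0 then -10 else if (j : ℕ) = 1 then 1 else 0)
    (κ := 1 / (4 * n)) (C := 2) (L := 3) hμ (by positivity) (fun i => ?_) fun x hx => ?_
  · set x : Fin n → ℝ := fun j => if (j : ℕ) = 0 then -10 else if (j : ℕ) = 1 then 1 else 0
      with hx
    have x0 : x j0 = -10 := by simp [hx, e0]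
    have x1 : x j1 = 1 := by simp [hx, e1]
    have s := sum_abs_le x j0 (D := 1) zero_le_one fun j hj => by
      have : (j : ℕ) ≠ 0 := fun hh => hj (Fin.ext (by omega))
      simp only [hx, if_neg this]; split_ifs <;> simp
    rw [x0] at s
    have a := (abs_le.1 (slack_near hA hb x i)).1
    have e : η * (1 + ∑ j, |x j|) ≤ 1 / 2 := by
      have : |(-10 : ℝ)| = 10 := by norm_num
      rw [this] at s
      nlinarith
    by_cases hi : (i : ℕ) ≤ k
    · rw [slack_wall x j0 j1 e0 e1 i hi, x0, x1] at a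
      nlinarith [tt_le_two hi, sq_nonneg (tt k i)]
    · rw [slack_bulk x j0 j1 e0 e1 (fun j hj => by
        simp only [hx]; rw [if_neg (by omega), if_neg (by omega)]) i hi, x1] at a
      linarith
  · set Q := 1 + ∑ j, |x j| with hQ
    have s0 : 0 ≤ ∑ j, |x j| := by positivity
    have he0 : 0 ≤ η * Q := by positivity
    obtain ⟨p1, p2, p3⟩ := prim hm (e := η * Q)
      (fun i => by linarith [(abs_le.1 (slack_near hA hb x i)).2, hx i]) j0 j1 e0 e1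
    have s := sum_abs_le x j0 (D := -x j0 + 1 + 3 * (η * Q)) (by linarith) fun j hj => by
      by_cases hj1 : j = j1
      · rw [hj1, abs_le]; constructor <;> linarith
      · linarith [p2 j (ne j hj hj1)]
    have a0 : |x j0| ≤ -x j0 + 1 + 4 * (η * Q) := by rw [abs_le]; constructor <;> linarith
    have a1 : n * (η * Q) ≤ 1 / 100 * Q := by nlinarith
    have a2 : η * Q ≤ 1 / 200 * Q := by nlinarith
    have a3 : 0 ≤ -x j0 + 1 + 3 * (η * Q) := by linarith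
    have a4 : Q ≤ 4 * n * (2 - x j0 - η * Q) := by nlinarith
    refine ⟨?_, fun i => ?_⟩
    · have c1 : ∑ j, c0 n j * x j = 1 * x j0 :=
        sum_ind x (fun l => (l : ℕ) = 0) _ j0 (fun l => by rw [Fin.ext_iff, e0])
      have c2 : ∑ j, (c j - c0 n j) * x j ≤ η * ∑ j, |x j| := by
        rw [Finset.mul_sum]
        exact Finset.sum_le_sum fun j _ => (le_abs_self _).trans (by
          rw [abs_mul]; exact mul_le_mul_of_nonneg_right (hc j) (abs_nonneg _))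
      simp only [sub_mul, Finset.sum_sub_distrib] at c2
      have c3 : 1 / (4 * (n : ℝ)) * Q ≤ 2 - x j0 - η * Q := by
        rw [one_div, inv_mul_le_iff₀ (by positivity)]; exact a4
      nlinarith
    · have b1 := (abs_le.1 (slack_near hA hb x i)).2
      have b2 := (abs_le.1 (slack_near (A := A0 m n k) (A' := 0) (b := b0 m k) (b' := 0) (η := 2)
        (fun i j => by simpa using abs_A0 i j) (fun i => by simpa using abs_b0 i) x i)).2
      have b3 : slack (0 : Matrix (Fin m) (Fin n) ℝ) 0 x i = 0 := by simp [slack]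
      linarith

theorem gauss_small {ι : Type} [Fintype ι] {r : ℝ} (hr : 0 < r)
    (h : Fintype.card ι / r ^ 2 ≤ 1 / 10) :
    9 / 10 ≤ (Measure.pi fun _ : ι => gaussianReal 0 1).real {G | ∀ p, |G p| < r} := by
  have ms : MeasurableSet {G : ι → ℝ | ∀ p, |G p| < r} := by
    rw [Set.ofPred_forall]
    exact MeasurableSet.iInter fun p => measurableSet_lt (by fun_prop) measurable_const
  have one : ∀ p, (Measure.pi fun _ : ι => gaussianReal 0 1).real {G | r ≤ |G p|} ≤ 1 / r ^ 2 := by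
    intro p
    have a := meas_ge_le_variance_div_sq (μ := gaussianReal 0 1) (X := id)
      (memLp_id_gaussianReal 2) hr
    rw [variance_id_gaussianReal] at a
    simp only [id, integral_id_gaussianReal, sub_zero, NNReal.coe_one] at a
    have b := (measurePreserving_eval (fun _ : ι => gaussianReal 0 1) p).measure_preimage
      (s := {t : ℝ | r ≤ |t|}) (measurableSet_le measurable_const (by fun_prop)).nullMeasurableSet
    refine ENNReal.toReal_le_of_le_ofReal (by positivity) (le_trans (le_of_eq ?_) a)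
    exact b
  have un : (Measure.pi fun _ : ι => gaussianReal 0 1).real {G : ι → ℝ | ∀ p, |G p| < r}ᶜ ≤
      1 / 10 := by
    have : {G : ι → ℝ | ∀ p, |G p| < r}ᶜ = ⋃ p, {G | r ≤ |G p|} := by ext G; simp
    rw [this]
    refine (measureReal_iUnion_fintype_le _).trans ((Finset.sum_le_sum fun p _ => one p).trans ?_)
    rw [Finset.sum_const, Finset.card_univ, nsmul_eq_mul, mul_one_div]; exact h
  rw [probReal_compl_eq_one_sub ms] at un
  linarith

theorem robust {γ : ℝ} (hγ : 0 < γ) (hγ1 : γ ≤ 1) (hn : 2 ≤ n) (hnm : 4 * n ≤ m) (hk : 1 ≤ k)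
    (hkm : 10000 * (k : ℝ) ^ 2 ≤ γ ^ 3 * m) {A : Matrix (Fin m) (Fin n) ℝ} {b : Fin m → ℝ}
    {c : Fin n → ℝ} (hA : ∀ i j, |3 * m * A i j - A0 m n k i j| ≤ 1 / (m : ℝ) ^ 2)
    (hb : ∀ i, |3 * m * b i - b0 m k i| ≤ 1 / (m : ℝ) ^ 2)
    (hc : ∀ j, |3 * m * c j - c0 n j| ≤ 1 / (m : ℝ) ^ 2) {g : ℝ} (hg : g = 1 / (6 * m)) :
    (∃ (T : ℕ) (x : ℕ → Fin n → ℝ) (y : ℕ → Fin m → ℝ), Run γ 0 A b c T 1 1 x y ∧
      (∀ l ≤ T, Bal γ A b (x l) (y l)) ∧ gap A b (x 0) (y 0) = 15 * g ∧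
      gap A b (x T) (y T) ≤ g) ∧
    ∀ (p T : ℕ) (α β : ℕ → ℝ) (x : ℕ → Fin n → ℝ) (y : ℕ → Fin m → ℝ),
      Run γ p A b c T α β x y → 10 * g ≤ gap A b (x 0) (y 0) →
      (gap A b (x T) (y T) ≤ g ∨ ∃ B, Mono A b (x T) (y T) B ∧ Opt A b c B) →
      ((∀ l ≤ T, Bal γ A b (x l) (y l)) ∨
        (α = β ∧ Bal γ A b (x 0) (y 0) ∧ gap A b (x 0) (y 0) ≤ 20 * g)) →
      k ≤ (3 * p + 6) * T + 1 := by
  have hk1 : (1 : ℝ) ≤ k := by exact_mod_cast hk
  have g3 : γ ^ 3 ≤ 1 := pow_le_one₀ hγ.le hγ1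
  have hm0' : (0 : ℝ) ≤ m := by positivity
  have q3 : (1000 : ℝ) * k ≤ m := by nlinarith
  have q4 : 1000 * k ≤ m := by exact_mod_cast q3
  have q5 : (4 : ℝ) * n ≤ m := by exact_mod_cast hnm
  have hm0 : (0 : ℝ) < m := by linarith
  have ha : (0 : ℝ) < 3 * m := by linarith
  have hg0 : 0 < g := by rw [hg]; positivity
  have hga : 3 * m * g = 1 / 2 := by rw [hg]; field_simp; norm_num
  refine ⟨exists_run hγ1 hg0 (by omega) fun μ hμ => ?_, fun p T α β x y hR h0 hT hB => ?_⟩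
  · obtain ⟨x, y, h1, h2⟩ := center_near (k := k) hn (by omega) (η := 1 / (m : ℝ) ^ 2)
      (by positivity) (by rw [mul_one_div, div_le_one (by positivity)]; nlinarith)
      (A := (3 * m : ℝ) • A) (b := (3 * m : ℝ) • b) (c := (3 * m : ℝ) • c) hA hb hc
      (mul_pos ha hμ)
    have h3 := feas_smul (inv_pos.2 ha) h1
    rw [inv_smul_smul₀ ha.ne', inv_smul_smul₀ ha.ne', inv_smul_smul₀ ha.ne'] at h3
    refine ⟨x, y, h3, fun i => mul_left_cancel₀ ha.ne' ?_⟩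
    rw [← h2 i, slack_smul]; ring
  · refine core hγ hγ1 hn hnm hk hkm (A := (3 * m : ℝ) • A) (b := (3 * m : ℝ) • b)
      (c := (3 * m : ℝ) • c) hA hb hc (run_smul ha hR) ?_ ?_ ?_
    · rw [gap_smul]; nlinarith
    · exact hT.imp (fun h => by rw [gap_smul]; nlinarith) (stop_smul ha)
    · rcases hB with hB | ⟨h1, h2, h3⟩
      · exact Or.inl fun l hl => bal_smul ha (hB l hl)
      · exact Or.inr ⟨h1, bal_smul ha h2, by rw [gap_smul]; nlinarith⟩

theorem main (γ : ℝ) (hγ : 0 < γ) (hγ1 : γ ≤ 1) (m n : ℕ) (hn : 2 ≤ n) (hnm : 4 * n ≤ m)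
    (hm : 40000 ≤ γ ^ 3 * m) (g : ℝ) (hg : g = 1 / (6 * m)) :
    ∃ (A₀ : Matrix (Fin m) (Fin n) ℝ) (b₀ : Fin m → ℝ) (c₀ : Fin n → ℝ),
      ∑ i, ∑ j, A₀ i j ^ 2 + ∑ i, b₀ i ^ 2 + ∑ j, c₀ j ^ 2 ≤ 1 ∧
      ∀ σ : ℝ, 0 ≤ σ → σ ≤ 1 / (m : ℝ) ^ 5 →
      ∃ E : Set (Option (Fin m) × Option (Fin n) → ℝ), MeasurableSet E ∧
        9 / 10 ≤ (Measure.pi fun _ => gaussianReal 0 1).real E ∧ ∀ G ∈ E,
        ∀ (A : Matrix (Fin m) (Fin n) ℝ) (b : Fin m → ℝ) (c : Fin n → ℝ),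
          (∀ i j, A i j = A₀ i j + σ * G (some i, some j)) →
          (∀ i, b i = b₀ i + σ * G (some i, none)) → (∀ j, c j = c₀ j + σ * G (none, some j)) →
          (∃ (T : ℕ) (x : ℕ → Fin n → ℝ) (y : ℕ → Fin m → ℝ), Run γ 0 A b c T 1 1 x y ∧
            (∀ l ≤ T, Bal γ A b (x l) (y l)) ∧ gap A b (x 0) (y 0) = 15 * g ∧
            gap A b (x T) (y T) ≤ g) ∧
          ∀ (p T : ℕ) (α β : ℕ → ℝ) (x : ℕ → Fin n → ℝ) (y : ℕ → Fin m → ℝ),
            Run γ p A b c T α β x y → 10 * g ≤ gap A b (x 0) (y 0) →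
            (gap A b (x T) (y T) ≤ g ∨ ∃ B, Mono A b (x T) (y T) B ∧ Opt A b c B) →
            ((∀ l ≤ T, Bal γ A b (x l) (y l)) ∨
              (α = β ∧ Bal γ A b (x 0) (y 0) ∧ gap A b (x 0) (y 0) ≤ 20 * g)) →
            √(γ ^ 3 * m) / 400 ≤ (p + 2) * T := by
  have g3 : γ ^ 3 ≤ 1 := pow_le_one₀ hγ.le hγ1
  have hm0' : (0 : ℝ) ≤ m := by positivity
  have m1 : (10000 : ℝ) ≤ m := by nlinarith
  have hm0 : (0 : ℝ) < m := by linarith
  have q5 : (4 : ℝ) * n ≤ m := by exact_mod_cast hnm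
  have r1 : 200 ≤ √(γ ^ 3 * m) := Real.le_sqrt_of_sq_le (by linarith)
  have r2 : √(γ ^ 3 * m) ^ 2 = γ ^ 3 * m := Real.sq_sqrt (by linarith)
  set k := ⌊√(γ ^ 3 * m) / 100⌋₊ with hkd
  have k0 : 2 ≤ k := Nat.le_floor (by push_cast; linarith)
  have k1 : 1 ≤ k := by omega
  have k1' : (1 : ℝ) ≤ k := by exact_mod_cast k1
  have k2 : (k : ℝ) ≤ √(γ ^ 3 * m) / 100 := Nat.floor_le (by positivity)
  have k3 : √(γ ^ 3 * m) / 100 < k + 1 := Nat.lt_floor_add_one _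
  have hkm : 10000 * (k : ℝ) ^ 2 ≤ γ ^ 3 * m := by nlinarith
  have sq : ∀ {u v : ℝ}, |u| ≤ v → (u / (3 * m)) ^ 2 ≤ v ^ 2 / (9 * m ^ 2) := fun {u v} h => by
    rw [div_pow, mul_pow, show (3 : ℝ) ^ 2 = 9 by norm_num, ← sq_abs]
    exact div_le_div_of_nonneg_right (pow_le_pow_left₀ (abs_nonneg _) h 2) (by positivity)
  refine ⟨fun i j => A0 m n k i j / (3 * m), fun i => b0 m k i / (3 * m),
    fun j => c0 n j / (3 * m), ?_, fun σ hσ0 hσ =>
    ⟨{G | ∀ p, |G p| < (m : ℝ) ^ 2 / 3}, ?_, gauss_small (by positivity) ?_,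
      fun G hG A b c hA hb hc => ?_⟩⟩
  · have a1 : ∑ i : Fin m, ∑ j : Fin n, (A0 m n k i j / (3 * m)) ^ 2 ≤
        m * (n * (2 ^ 2 / (9 * (m : ℝ) ^ 2))) :=
      (Finset.sum_le_sum fun i _ => Finset.sum_le_sum fun j _ => sq (abs_A0 i j)).trans (by simp)
    have a2 : ∑ i : Fin m, (b0 m k i / (3 * m)) ^ 2 ≤ m * (2 ^ 2 / (9 * (m : ℝ) ^ 2)) :=
      (Finset.sum_le_sum fun i _ => sq (abs_b0 i)).trans (by simp)
    have a3 : ∑ j : Fin n, (c0 n j / (3 * m)) ^ 2 ≤ n * (1 ^ 2 / (9 * (m : ℝ) ^ 2)) :=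
      (Finset.sum_le_sum fun j _ => sq (abs_c0 j)).trans (by simp)
    have a4 : m * (n * (2 ^ 2 / (9 * (m : ℝ) ^ 2))) + m * (2 ^ 2 / (9 * (m : ℝ) ^ 2)) +
        n * (1 ^ 2 / (9 * (m : ℝ) ^ 2)) = (4 * m * n + 4 * m + n) / (9 * m ^ 2) := by ring
    have a5 : (4 * m * n + 4 * m + n) / (9 * (m : ℝ) ^ 2) ≤ 1 := by
      rw [div_le_one (by positivity)]; nlinarith
    linarith
  · rw [Set.ofPred_forall]
    exact MeasurableSet.iInter fun p => measurableSet_lt (by fun_prop) measurable_const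
  · simp only [Fintype.card_prod, Fintype.card_option, Fintype.card_fin]
    push_cast
    rw [div_le_iff₀ (by positivity)]
    have : ((m : ℝ) + 1) * (n + 1) ≤ m ^ 2 := by nlinarith
    have : (100 : ℝ) * m ^ 2 ≤ m ^ 2 * m ^ 2 :=
      mul_le_mul_of_nonneg_right (by nlinarith) (by positivity)
    nlinarith
  · have key : ∀ (u : ℝ) p, |3 * m * (u / (3 * m) + σ * G p) - u| ≤ 1 / (m : ℝ) ^ 2 := by
      intro u p
      have e : 3 * m * (u / (3 * m) + σ * G p) - u = 3 * m * σ * G p := by field_simp; ring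
      rw [e, abs_mul, abs_of_nonneg (by positivity)]
      calc _ ≤ 3 * m * (1 / (m : ℝ) ^ 5) * ((m : ℝ) ^ 2 / 3) := by gcongr; exact (hG p).le
        _ = _ := by field_simp
    obtain ⟨h1, h2⟩ := robust hγ hγ1 hn hnm k1 hkm (A := A) (b := b) (c := c)
      (fun i j => by rw [hA]; exact key _ _) (fun i => by rw [hb]; exact key _ _)
      (fun j => by rw [hc]; exact key _ _) hg
    refine ⟨h1, fun p T α β x y hR h0 hT hB => ?_⟩
    have h3 := h2 p T α β x y hR h0 hT hB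
    have h4 : 1 ≤ T := by
      rcases Nat.eq_zero_or_pos T with h | h
      · rw [h] at h3; omega
      · exact h
    have : (k : ℝ) + 1 ≤ 4 * ((p + 2) * T) := by
      exact_mod_cast (show k + 1 ≤ 4 * ((p + 2) * T) by nlinarith)
    linarith

end Pool.Agent.Work.MP_6af739_lc.LB
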