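import Pool.Agent.Work.MP_6af739_lc.LB.Defs

/-!
The nominal program: tangents of a parabola and many copies of one row.
-/

namespace Pool.Agent.Work.MP_6af739_lc.LB

open Finset

variable {m n k : ℕ}

noncomputable def tt (k i : ℕ) : ℝ := 1 + (i : ℝ) / k

noncomputable def A0 (m n k : ℕ) : Matrix (Fin m) (Fin n) ℝ := fun i j =>
  (if (j : ℕ) = 0 then (if (i : ℕ) ≤ k then 1 else 0) else 0) +
  (if (j : ℕ) = 1 then (if (i : ℕ) ≤ k then tt k i else -1) else 0) +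
  (if 2 ≤ (j : ℕ) ∧ (i : ℕ) + 3 = k + 2 * j then 1 else 0) -
  (if 2 ≤ (j : ℕ) ∧ (i : ℕ) + 2 = k + 2 * j then 1 else 0)

noncomputable def b0 (m k : ℕ) : Fin m → ℝ := fun i => if (i : ℕ) ≤ k then tt k i ^ 2 / 2 else 0

noncomputable def c0 (n : ℕ) : Fin n → ℝ := fun j => if (j : ℕ) = 0 then 1 else 0

theorem one_le_tt (k i : ℕ) : 1 ≤ tt k i := by
  unfold tt; have : (0 : ℝ) ≤ (i : ℝ) / k := by positivity
  linarith

theorem tt_le_two {i : ℕ} (h : i ≤ k) : tt k i ≤ 2 := by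
  unfold tt
  have : (i : ℝ) / k ≤ 1 := div_le_one_of_le₀ (by exact_mod_cast h) (by positivity)
  linarith

theorem abs_A0 (i : Fin m) (j : Fin n) : |A0 m n k i j| ≤ 2 := by
  unfold A0
  have h1 := one_le_tt k i
  by_cases h : (i : ℕ) ≤ k
  · have h2 := tt_le_two h
    rw [abs_le]
    split_ifs <;> first | omega | (constructor <;> linarith)
  · rw [abs_le]
    split_ifs <;> first | omega | (constructor <;> linarith)

theorem abs_b0 (i : Fin m) : |b0 m k i| ≤ 2 := by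
  unfold b0
  split_ifs with h
  · have h1 := one_le_tt k i
    have h2 := tt_le_two h
    rw [abs_le]; constructor <;> nlinarith
  · simp

theorem abs_c0 (j : Fin n) : |c0 n j| ≤ 1 := by
  unfold c0; split_ifs <;> simp

theorem sum_ind (x : Fin n → ℝ) (p : Fin n → Prop) [DecidablePred p] (a : ℝ) (j : Fin n)
    (hp : ∀ l, p l ↔ l = j) : ∑ l, (if p l then a else 0) * x l = a * x j := by
  rw [Finset.sum_eq_single j]
  · rw [if_pos ((hp j).2 rfl)]
  · intro l _ hl; rw [if_neg (fun h => hl ((hp l).1 h)), zero_mul]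
  · simp

theorem sum_ind0 (x : Fin n → ℝ) (p : Fin n → Prop) [DecidablePred p] (a : ℝ)
    (hp : ∀ l, ¬ p l) : ∑ l, (if p l then a else 0) * x l = 0 := by
  apply Finset.sum_eq_zero; intro l _; rw [if_neg (hp l), zero_mul]

theorem row_split (x : Fin n → ℝ) (j0 j1 : Fin n) (h0 : (j0 : ℕ) = 0) (h1 : (j1 : ℕ) = 1)
    (i : Fin m) : ∑ j, A0 m n k i j * x j =
      (if (i : ℕ) ≤ k then 1 else 0) * x j0 + (if (i : ℕ) ≤ k then tt k i else -1) * x j1 +
      ∑ j : Fin n, (if 2 ≤ (j : ℕ) ∧ (i : ℕ) + 3 = k + 2 * j then (1 : ℝ) else 0) * x j -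
      ∑ j : Fin n, (if 2 ≤ (j : ℕ) ∧ (i : ℕ) + 2 = k + 2 * j then (1 : ℝ) else 0) * x j := by
  unfold A0
  simp only [add_mul, sub_mul, Finset.sum_add_distrib, Finset.sum_sub_distrib]
  rw [sum_ind x (fun l => (l : ℕ) = 0) _ j0 (fun l => by rw [Fin.ext_iff, h0]),
    sum_ind x (fun l => (l : ℕ) = 1) _ j1 (fun l => by rw [Fin.ext_iff, h1])]

theorem slack_wall (x : Fin n → ℝ) (j0 j1 : Fin n) (h0 : (j0 : ℕ) = 0) (h1 : (j1 : ℕ) = 1)
    (i : Fin m) (hi : (i : ℕ) ≤ k) :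
    slack (A0 m n k) (b0 m k) x i = tt k i ^ 2 / 2 - x j0 - tt k i * x j1 := by
  unfold slack b0
  rw [row_split x j0 j1 h0 h1, sum_ind0 x _ _ (fun l => by omega),
    sum_ind0 x _ _ (fun l => by omega)]
  simp only [if_pos hi]; ring

theorem slack_last (x : Fin n → ℝ) (j0 j1 : Fin n) (h0 : (j0 : ℕ) = 0) (h1 : (j1 : ℕ) = 1)
    (i : Fin m) (hi : k + 2 * n ≤ (i : ℕ)) : slack (A0 m n k) (b0 m k) x i = x j1 := by
  unfold slack b0
  have hn := j1.2
  rw [row_split x j0 j1 h0 h1, sum_ind0 x _ _ (fun l => by have := l.2; omega),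
    sum_ind0 x _ _ (fun l => by have := l.2; omega)]
  simp only [if_neg (show ¬ (i : ℕ) ≤ k by omega)]; ring

theorem slack_plus (x : Fin n → ℝ) (j0 j1 : Fin n) (h0 : (j0 : ℕ) = 0) (h1 : (j1 : ℕ) = 1)
    (j : Fin n) (hj : 2 ≤ (j : ℕ)) (i : Fin m) (hi : (i : ℕ) + 3 = k + 2 * j) :
    slack (A0 m n k) (b0 m k) x i = x j1 - x j := by
  unfold slack b0
  rw [row_split x j0 j1 h0 h1, sum_ind x _ _ j (fun l => by rw [Fin.ext_iff]; omega),
    sum_ind0 x _ _ (fun l => by omega)]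
  simp only [if_neg (show ¬ (i : ℕ) ≤ k by omega)]; ring

theorem slack_minus (x : Fin n → ℝ) (j0 j1 : Fin n) (h0 : (j0 : ℕ) = 0) (h1 : (j1 : ℕ) = 1)
    (j : Fin n) (hj : 2 ≤ (j : ℕ)) (i : Fin m) (hi : (i : ℕ) + 2 = k + 2 * j) :
    slack (A0 m n k) (b0 m k) x i = x j1 + x j := by
  unfold slack b0
  rw [row_split x j0 j1 h0 h1, sum_ind0 x _ _ (fun l => by omega),
    sum_ind x _ _ j (fun l => by rw [Fin.ext_iff]; omega)]
  simp only [if_neg (show ¬ (i : ℕ) ≤ k by omega)]; ring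

/-- At a point with `x_j = 0` for `j ≥ 2` every bulk slack is `x_1`. -/
theorem slack_bulk (x : Fin n → ℝ) (j0 j1 : Fin n) (h0 : (j0 : ℕ) = 0) (h1 : (j1 : ℕ) = 1)
    (hx : ∀ j : Fin n, 2 ≤ (j : ℕ) → x j = 0) (i : Fin m) (hi : ¬ (i : ℕ) ≤ k) :
    slack (A0 m n k) (b0 m k) x i = x j1 := by
  unfold slack b0
  rw [row_split x j0 j1 h0 h1, Finset.sum_eq_zero, Finset.sum_eq_zero]
  · simp only [if_neg hi]; ring
  · intro l _; split_ifs with h
    · rw [hx l h.1, mul_zero]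
    · simp
  · intro l _; split_ifs with h
    · rw [hx l h.1, mul_zero]
    · simp

/-- The walls and the bulk rows. -/
def Wl (m k : ℕ) : Finset (Fin m) := univ.filter fun i => (i : ℕ) ≤ k

def Bk (m k : ℕ) : Finset (Fin m) := univ.filter fun i => ¬ (i : ℕ) ≤ k

theorem sum_split (f : Fin m → ℝ) : ∑ i, f i = ∑ i ∈ Wl m k, f i + ∑ i ∈ Bk m k, f i :=
  (Finset.sum_filter_add_sum_filter_not _ _ _).symm

theorem mem_Wl {i : Fin m} : i ∈ Wl m k ↔ (i : ℕ) ≤ k := by simp [Wl]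

theorem mem_Bk {i : Fin m} : i ∈ Bk m k ↔ ¬ (i : ℕ) ≤ k := by simp [Bk]

theorem card_Wl : (Wl m k).card ≤ k + 1 := by
  have : (Wl m k).card ≤ (Finset.range (k + 1)).card :=
    Finset.card_le_card_of_injOn (fun i => (i : ℕ))
      (fun i hi => by
        have := mem_Wl.1 (Finset.mem_coe.1 hi)
        simp only [Finset.coe_range, Set.mem_Iio]; omega)
      (fun a _ b _ h => Fin.ext h)
  simpa using this

theorem card_Bk : m ≤ (Bk m k).card + (k + 1) := by
  have h := Finset.card_filter_add_card_filter_not (s := (univ : Finset (Fin m)))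
    (fun i => (i : ℕ) ≤ k)
  have h2 := card_Wl (m := m) (k := k)
  simp only [Finset.card_univ, Fintype.card_fin] at h
  unfold Wl at h2; unfold Bk; omega

theorem col0 (y : Fin m → ℝ) (j0 : Fin n) (h0 : (j0 : ℕ) = 0) :
    ∑ i, A0 m n k i j0 * y i = ∑ i ∈ Wl m k, y i := by
  rw [sum_split (k := k), Finset.sum_eq_zero (s := Bk m k), add_zero]
  · refine Finset.sum_congr rfl fun i hi => ?_
    have := mem_Wl.1 hi
    simp [A0, h0, this]
  · intro i hi
    have := mem_Bk.1 hi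
    simp [A0, h0, this]

theorem col1 (y : Fin m → ℝ) (j1 : Fin n) (h1 : (j1 : ℕ) = 1) :
    ∑ i, A0 m n k i j1 * y i = ∑ i ∈ Wl m k, tt k i * y i - ∑ i ∈ Bk m k, y i := by
  rw [sum_split (k := k), sub_eq_add_neg, ← Finset.sum_neg_distrib]
  congr 1
  · refine Finset.sum_congr rfl fun i hi => ?_
    have := mem_Wl.1 hi
    simp [A0, h1, this]
  · refine Finset.sum_congr rfl fun i hi => ?_
    have := mem_Bk.1 hi
    simp [A0, h1, this]

theorem sum_b0 (y : Fin m → ℝ) :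
    ∑ i, b0 m k i * y i = ∑ i ∈ Wl m k, tt k i ^ 2 / 2 * y i := by
  rw [sum_split (k := k), Finset.sum_eq_zero (s := Bk m k), add_zero]
  · refine Finset.sum_congr rfl fun i hi => ?_
    simp [b0, mem_Wl.1 hi]
  · intro i hi
    simp [b0, mem_Bk.1 hi]

theorem gap_eq (A : Matrix (Fin m) (Fin n) ℝ) (b : Fin m → ℝ) (x : Fin n → ℝ) (y : Fin m → ℝ) :
    ∑ i, slack A b x i * y i = ∑ i, b i * y i - ∑ j, x j * ∑ i, A i j * y i := by
  unfold slack
  simp only [sub_mul, Finset.sum_sub_distrib, Finset.sum_mul, Finset.mul_sum]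
  rw [Finset.sum_comm]
  congr 1
  exact Finset.sum_congr rfl fun j _ => Finset.sum_congr rfl fun i _ => by ring

theorem slack_near {A A' : Matrix (Fin m) (Fin n) ℝ} {b b' : Fin m → ℝ} {η : ℝ}
    (hA : ∀ i j, |A i j - A' i j| ≤ η) (hb : ∀ i, |b i - b' i| ≤ η) (x : Fin n → ℝ) (i : Fin m) :
    |slack A b x i - slack A' b' x i| ≤ η * (1 + ∑ j, |x j|) := by
  have h : slack A b x i - slack A' b' x i = (b i - b' i) - ∑ j, (A i j - A' i j) * x j := by
    unfold slack; simp only [sub_mul, Finset.sum_sub_distrib]; ring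
  rw [h, mul_add, mul_one, Finset.mul_sum]
  refine (abs_sub _ _).trans (add_le_add (hb i) ((Finset.abs_sum_le_sum_abs _ _).trans
    (Finset.sum_le_sum fun j _ => ?_)))
  rw [abs_mul]; exact mul_le_mul_of_nonneg_right (hA i j) (abs_nonneg _)

theorem dual_near {A A' : Matrix (Fin m) (Fin n) ℝ} {c c' : Fin n → ℝ} {η : ℝ}
    (hA : ∀ i j, |A i j - A' i j| ≤ η) (hc : ∀ j, |c j - c' j| ≤ η) {y : Fin m → ℝ}
    (hy : ∀ i, 0 ≤ y i) (h : ∀ j, ∑ i, A i j * y i = c j) (j : Fin n) :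
    |∑ i, A' i j * y i - c' j| ≤ η * (1 + ∑ i, y i) := by
  have e : ∑ i, A' i j * y i - c' j = (c j - c' j) - ∑ i, (A i j - A' i j) * y i := by
    rw [← h j]; simp only [sub_mul, Finset.sum_sub_distrib]; ring
  rw [e, mul_add, mul_one, Finset.mul_sum]
  refine (abs_sub _ _).trans (add_le_add (hc j) ((Finset.abs_sum_le_sum_abs _ _).trans
    (Finset.sum_le_sum fun i _ => ?_)))
  rw [abs_mul, abs_of_nonneg (hy i)]; exact mul_le_mul_of_nonneg_right (hA i j) (hy i)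

end Pool.Agent.Work.MP_6af739_lc.LB
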