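import Pool.Agent.Work.MP_6af739_lc.LB.Nom

/-!
Static estimates for feasible pairs of a program near the nominal one.
-/

namespace Pool.Agent.Work.MP_6af739_lc.LB

open Finset

variable {m n k : ℕ}

structure Near (m n k : ℕ) (η : ℝ) (x : Fin n → ℝ) (y s : Fin m → ℝ) : Prop where
  spos : ∀ i, 0 ≤ s i
  ypos : ∀ i, 0 ≤ y i
  hs : ∀ i, |s i - slack (A0 m n k) (b0 m k) x i| ≤ η * (1 + ∑ j, |x j|)
  hr : ∀ j, |∑ i, A0 m n k i j * y i - c0 n j| ≤ η * (1 + ∑ i, y i)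

theorem dualB {η : ℝ} {x : Fin n → ℝ} {y s : Fin m → ℝ} (h : Near m n k η x y s) (hη0 : 0 ≤ η)
    (hη : η ≤ 1 / 100) (j0 j1 : Fin n) (h0 : (j0 : ℕ) = 0) (h1 : (j1 : ℕ) = 1) :
    η * (1 + ∑ i, y i) ≤ 5 * η ∧ |∑ i ∈ Wl m k, y i - 1| ≤ 5 * η ∧
      ∑ i ∈ Wl m k, y i ≤ ∑ i ∈ Wl m k, tt k i * y i ∧
      ∑ i ∈ Wl m k, tt k i * y i ≤ 2 * ∑ i ∈ Wl m k, y i ∧ ∑ i ∈ Bk m k, y i ≤ 3 := by
  have a0 := h.hr j0
  have a1 := h.hr j1
  rw [col0 y j0 h0] at a0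
  rw [col1 y j1 h1] at a1
  have e0 : c0 n j0 = 1 := by simp [c0, h0]
  have e1 : c0 n j1 = 0 := by simp [c0, h1]
  rw [e0] at a0; rw [e1, sub_zero] at a1
  have v1 : ∑ i ∈ Wl m k, y i ≤ ∑ i ∈ Wl m k, tt k i * y i :=
    Finset.sum_le_sum fun i _ => le_mul_of_one_le_left (h.ypos i) (one_le_tt k i)
  have v2 : ∑ i ∈ Wl m k, tt k i * y i ≤ 2 * ∑ i ∈ Wl m k, y i := by
    rw [Finset.mul_sum]
    exact Finset.sum_le_sum fun i hi =>
      mul_le_mul_of_nonneg_right (tt_le_two (mem_Wl.1 hi)) (h.ypos i)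
  have sp := sum_split (k := k) y
  have hW : 0 ≤ 1 + ∑ i, y i := by
    have : 0 ≤ ∑ i, y i := Finset.sum_nonneg fun i _ => (h.ypos i)
    linarith
  have hb : η * (1 + ∑ i, y i) ≤ 1 / 100 * (1 + ∑ i, y i) := mul_le_mul_of_nonneg_right hη hW
  have b0' := abs_le.1 a0
  have b1 := abs_le.1 a1
  have h5 : 1 + ∑ i, y i ≤ 5 := by linarith [b0'.1, b0'.2, b1.1, b1.2]
  have h6 : η * (1 + ∑ i, y i) ≤ 5 * η := by nlinarith
  exact ⟨h6, a0.trans h6, v1, v2, by linarith [b0'.1, b0'.2, b1.1, b1.2]⟩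

theorem prim {x : Fin n → ℝ} {e : ℝ} (hm : k + 2 * n < m)
    (h : ∀ i, -e ≤ slack (A0 m n k) (b0 m k) x i)
    (j0 j1 : Fin n) (h0 : (j0 : ℕ) = 0) (h1 : (j1 : ℕ) = 1) :
    -e ≤ x j1 ∧ (∀ j : Fin n, 2 ≤ (j : ℕ) → |x j| ≤ x j1 + e) ∧ x j0 ≤ 1 / 2 - x j1 + e := by
  refine ⟨?_, fun j hj => ?_, ?_⟩
  · have := h ⟨k + 2 * n, hm⟩
    rwa [slack_last x j0 j1 h0 h1 _ le_rfl] at this
  · have hj2 := j.2
    have a := h ⟨k + 2 * j - 3, by omega⟩
    have b := h ⟨k + 2 * j - 2, by omega⟩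
    rw [slack_plus x j0 j1 h0 h1 j hj _ (by simp only; omega)] at a
    rw [slack_minus x j0 j1 h0 h1 j hj _ (by simp only; omega)] at b
    rw [abs_le]; constructor <;> linarith
  · have := h ⟨0, by omega⟩
    rw [slack_wall x j0 j1 h0 h1 _ (by simp)] at this
    simp only [tt, Nat.cast_zero, zero_div, add_zero] at this
    linarith

theorem sum_abs_le (x : Fin n → ℝ) (j0 : Fin n) {D : ℝ} (hD : 0 ≤ D)
    (h : ∀ j, j ≠ j0 → |x j| ≤ D) : ∑ j, |x j| ≤ |x j0| + n * D := by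
  calc ∑ j, |x j| ≤ ∑ j, ((if j = j0 then |x j0| else 0) + D) :=
        Finset.sum_le_sum fun j _ => by
          split_ifs with hj
          · rw [hj]; linarith
          · linarith [h j hj]
    _ = |x j0| + n * D := by simp [Finset.sum_add_distrib]

theorem errB {η B : ℝ} {x : Fin n → ℝ} {y s : Fin m → ℝ} (h : Near m n k η x y s)
    (hm : k + 2 * n < m) (hη0 : 0 ≤ η) (hη : η ≤ 1 / 100) (hε : η * (n + 3) ≤ 1 / 2)
    (j0 j1 : Fin n) (h0 : (j0 : ℕ) = 0) (h1 : (j1 : ℕ) = 1) (hB0 : 0 ≤ B)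
    (hB : ∀ i : Fin m, (i : ℕ) ≤ k → s i * y i ≤ B) :
    η * (1 + ∑ j, |x j|) ≤ 2 * (η * (n + 3)) * max 1 (x j1) + 4 * η * ((k + 1) * B) := by
  obtain ⟨-, d1, -, -, -⟩ := dualB h hη0 hη j0 j1 h0 h1
  set e := η * (1 + ∑ j, |x j|) with he
  have he0 : 0 ≤ e := by positivity
  have hlow : ∀ i, s i - e ≤ slack (A0 m n k) (b0 m k) x i := fun i => by
    linarith [(abs_le.1 (h.hs i)).2]
  obtain ⟨p1, p2, p3⟩ := prim hm (fun i => by linarith [hlow i, h.spos i]) j0 j1 h0 h1 (e := e)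
  set M := max 1 (x j1) with hM
  have M1 : 1 ≤ M := le_max_left _ _
  have M2 : x j1 ≤ M := le_max_right _ _
  have ht : |x j1| ≤ M + e := by rw [abs_le]; constructor <;> linarith
  have hD : (-x j0 - 2 * |x j1| - e) * ∑ i ∈ Wl m k, y i ≤ (k + 1) * B := by
    rw [Finset.mul_sum]
    calc _ ≤ ∑ i ∈ Wl m k, B := Finset.sum_le_sum fun i hi => by
          have hi' := mem_Wl.1 hi
          refine le_trans (mul_le_mul_of_nonneg_right ?_ (h.ypos i)) (hB i hi')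
          have a := (abs_le.1 (h.hs i)).1
          rw [slack_wall x j0 j1 h0 h1 i hi'] at a
          have a1 := one_le_tt k i
          have a2 := tt_le_two hi'
          have a3 : tt k i * x j1 ≤ 2 * |x j1| :=
            (mul_le_mul_of_nonneg_left (le_abs_self _) (by linarith)).trans
              (mul_le_mul_of_nonneg_right a2 (abs_nonneg _))
          nlinarith [sq_nonneg (tt k i)]
      _ ≤ (k + 1) * B := by
          rw [Finset.sum_const, nsmul_eq_mul]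
          exact mul_le_mul_of_nonneg_right (by exact_mod_cast card_Wl) hB0
  have hkB : 0 ≤ ((k : ℝ) + 1) * B := by positivity
  have hY : 1 / 2 ≤ ∑ i ∈ Wl m k, y i := by linarith [(abs_le.1 d1).1]
  have hD2 : -x j0 - 2 * |x j1| - e ≤ 2 * ((k + 1) * B) := by
    by_contra hc
    nlinarith
  have hx0 : |x j0| ≤ 2 * M + 3 * e + 2 * ((k + 1) * B) := by
    rw [abs_le]; constructor <;> linarith
  have hS := sum_abs_le x j0 (D := M + e) (by linarith) fun j hj => by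
    by_cases hj1 : j = j1
    · rw [hj1]; exact ht
    · have : 2 ≤ (j : ℕ) := by
        have a : (j : ℕ) ≠ j0 := fun hh => hj (Fin.ext hh)
        have b : (j : ℕ) ≠ j1 := fun hh => hj1 (Fin.ext hh)
        omega
      linarith [p2 j this]
  have hQ : 1 + ∑ j, |x j| ≤ (n + 3) * (M + e) + 2 * ((k + 1) * B) := by nlinarith
  have h2 : e ≤ η * (n + 3) * M + η * (n + 3) * e + 2 * η * ((k + 1) * B) := by
    have := mul_le_mul_of_nonneg_left hQ hη0
    rw [← he] at this; linarith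
  have h3 : η * (n + 3) * e ≤ 1 / 2 * e := mul_le_mul_of_nonneg_right hε he0
  linarith

theorem bulkB {η : ℝ} {x : Fin n → ℝ} {y s : Fin m → ℝ} (h : Near m n k η x y s) (hη0 : 0 ≤ η)
    (hη : η ≤ 1 / 100) (j0 j1 : Fin n) (h0 : (j0 : ℕ) = 0) (h1 : (j1 : ℕ) = 1) :
    |∑ i ∈ Bk m k, s i * y i - x j1 * ∑ i ∈ Wl m k, tt k i * y i| ≤
      13 * (η * (1 + ∑ j, |x j|)) := by
  obtain ⟨d0, d1, -, -, d4⟩ := dualB h hη0 hη j0 j1 h0 h1
  set e := η * (1 + ∑ j, |x j|) with he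
  have he0 : 0 ≤ e := by positivity
  have g1 := gap_eq (A0 m n k) (b0 m k) x y
  rw [sum_split (k := k), sum_b0] at g1
  have g2 : ∑ i ∈ Wl m k, slack (A0 m n k) (b0 m k) x i * y i =
      ∑ i ∈ Wl m k, tt k i ^ 2 / 2 * y i - x j0 * ∑ i ∈ Wl m k, y i -
        x j1 * ∑ i ∈ Wl m k, tt k i * y i := by
    rw [Finset.mul_sum, Finset.mul_sum, ← Finset.sum_sub_distrib, ← Finset.sum_sub_distrib]
    exact Finset.sum_congr rfl fun i hi => by
      rw [slack_wall x j0 j1 h0 h1 i (mem_Wl.1 hi)]; ring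
  have g3 : ∑ j, x j * ∑ i, A0 m n k i j * y i =
      x j0 + ∑ j, x j * (∑ i, A0 m n k i j * y i - c0 n j) := by
    have : ∑ j, c0 n j * x j = 1 * x j0 :=
      sum_ind x (fun l => (l : ℕ) = 0) _ j0 (fun l => by rw [Fin.ext_iff, h0])
    simp only [mul_sub, Finset.sum_sub_distrib, mul_comm (x _) (c0 n _), this]; ring
  have hs0 : 0 ≤ ∑ j, |x j| := by positivity
  have g4 : |∑ j, x j * (∑ i, A0 m n k i j * y i - c0 n j)| ≤ 5 * e := by
    refine (Finset.abs_sum_le_sum_abs _ _).trans ?_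
    calc _ ≤ ∑ j, |x j| * (5 * η) := Finset.sum_le_sum fun j _ => by
          rw [abs_mul]; exact mul_le_mul_of_nonneg_left ((h.hr j).trans d0) (abs_nonneg _)
      _ ≤ 5 * e := by rw [← Finset.sum_mul, he]; nlinarith
  have g5 : |x j0 * (∑ i ∈ Wl m k, y i - 1)| ≤ 5 * e := by
    have a : |x j0| ≤ ∑ j, |x j| :=
      Finset.single_le_sum (f := fun j => |x j|) (fun j _ => abs_nonneg _) (mem_univ j0)
    rw [abs_mul]
    calc _ ≤ (∑ j, |x j|) * (5 * η) := mul_le_mul a d1 (abs_nonneg _) hs0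
      _ ≤ 5 * e := by rw [he]; nlinarith
  have g6 : |∑ i ∈ Bk m k, s i * y i - ∑ i ∈ Bk m k, slack (A0 m n k) (b0 m k) x i * y i| ≤
      3 * e := by
    rw [← Finset.sum_sub_distrib]
    refine (Finset.abs_sum_le_sum_abs _ _).trans ?_
    calc _ ≤ ∑ i ∈ Bk m k, e * y i := Finset.sum_le_sum fun i _ => by
          rw [← sub_mul, abs_mul, abs_of_nonneg (h.ypos i)]
          exact mul_le_mul_of_nonneg_right (h.hs i) (h.ypos i)
      _ ≤ 3 * e := by rw [← Finset.mul_sum]; nlinarith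
  have a4 := abs_le.1 g4
  have a5 := abs_le.1 g5
  have a6 := abs_le.1 g6
  rw [abs_le]; constructor <;> nlinarith [a4.1, a4.2, a5.1, a5.2, a6.1, a6.2]

noncomputable def pos (k : ℕ) (t : ℝ) : ℕ := min k ⌊(t - 1) * k + 1 / 2⌋₊

theorem pos_le (t : ℝ) : pos k t ≤ k := min_le_left _ _

theorem pos_lo {t : ℝ} (h : 1 ≤ pos k t) : (pos k t : ℝ) - 1 / 2 ≤ (t - 1) * k := by
  have a : pos k t ≤ ⌊(t - 1) * k + 1 / 2⌋₊ := min_le_right _ _
  have := (Nat.le_floor_iff' (by omega)).1 a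
  linarith

theorem pos_hi {t : ℝ} (h : pos k t < k) : (t - 1) * k < pos k t + 1 / 2 := by
  have a : pos k t = ⌊(t - 1) * k + 1 / 2⌋₊ := by
    unfold pos at h ⊢; omega
  have := Nat.lt_floor_add_one ((t - 1) * k + 1 / 2)
  rw [a]; linarith

theorem pos_top {t : ℝ} (h : 2 ≤ t) : pos k t = k := by
  apply min_eq_left
  apply Nat.le_floor
  have : (0 : ℝ) ≤ k := by positivity
  nlinarith

theorem pos_bot {t : ℝ} (h : t ≤ 1) : pos k t = 0 := by
  have : ⌊(t - 1) * k + 1 / 2⌋₊ = 0 := by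
    apply Nat.floor_eq_zero.2
    have : (0 : ℝ) ≤ k := by positivity
    nlinarith
  unfold pos; omega

theorem tele (N : ℕ) : ∑ a ∈ range N, 1 / (((a : ℝ) + 2) * (a + 1)) = 1 - 1 / (N + 1) := by
  induction N with
  | zero => simp
  | succ N ih => rw [Finset.sum_range_succ, ih]; push_cast; field_simp; ring

theorem tail_sum (S : Finset (Fin m)) (φ : Fin m → ℕ) (hφ : Set.InjOn φ S) (f : Fin m → ℝ)
    {C : ℝ} (hC : 0 ≤ C) (hf : ∀ i ∈ S, f i * (((φ i : ℝ) + 2) * (φ i + 1)) ≤ C) :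
    ∑ i ∈ S, f i ≤ C := by
  calc ∑ i ∈ S, f i ≤ ∑ i ∈ S, C * (1 / (((φ i : ℝ) + 2) * (φ i + 1))) :=
        Finset.sum_le_sum fun i hi => by
          rw [mul_one_div, le_div_iff₀ (by positivity)]; exact hf i hi
    _ = C * ∑ a ∈ S.image φ, 1 / (((a : ℝ) + 2) * (a + 1)) := by
        rw [← Finset.mul_sum, Finset.sum_image hφ]
    _ ≤ C * ∑ a ∈ range (S.sup φ + 1), 1 / (((a : ℝ) + 2) * (a + 1)) := by
        refine mul_le_mul_of_nonneg_left (Finset.sum_le_sum_of_subset_of_nonneg ?_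
          fun a _ _ => by positivity) hC
        intro a ha
        obtain ⟨i, hi, rfl⟩ := Finset.mem_image.1 ha
        exact Finset.mem_range.2 (Nat.lt_succ_of_le (Finset.le_sup hi))
    _ ≤ C := by
        rw [tele]
        have : (0 : ℝ) ≤ 1 / ((S.sup φ + 1 : ℕ) + 1) := by positivity
        nlinarith

end Pool.Agent.Work.MP_6af739_lc.LB
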